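import Pool.Agent.H32.RK.TargetsE

/-!
# MP_63b6b1_nt, board `hpk_modules`, row RNB: the pairs which are bad at an infinite place are rare
-/

set_option autoImplicit false

open Finset NumberField Pool.Agent.H32.RQ Pool.Agent.H32.RK

namespace Pool.Agent.H70.RK

section lip

variable {s : ℕ} {A e : ℝ} {x x' : Fin s → ℂ}

theorem prod_lip {a b a' b' : ℂ} {M δ : ℝ} (ha' : ‖a'‖ ≤ M) (hb : ‖b‖ ≤ M) (hda : ‖a' - a‖ ≤ δ)
    (hdb : ‖b' - b‖ ≤ δ) : ‖a' * b' - a * b‖ ≤ 2 * (M * δ) := by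
  have hM : 0 ≤ M := (norm_nonneg _).trans hb
  have h1 : a' * b' - a * b = a' * (b' - b) + (a' - a) * b := by ring
  rw [h1]
  refine (norm_add_le _ _).trans ?_
  rw [norm_mul, norm_mul]
  have h2 : ‖a'‖ * ‖b' - b‖ ≤ M * δ := mul_le_mul ha' hdb (norm_nonneg _) hM
  have h3 : ‖a' - a‖ * ‖b‖ ≤ δ * M := mul_le_mul hda hb (norm_nonneg _) ((norm_nonneg _).trans hda)
  linarith

theorem qf_lip (f : Mon s → ℂ) (hA : 0 ≤ A) (hf : ∀ q, ‖f q‖ ≤ A) (hx : ∀ j, ‖x j‖ ≤ 1)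
    (hx' : ∀ j, ‖x' j‖ ≤ 1) (hd : ∀ j, ‖x' j - x j‖ ≤ e) :
    ‖qf f x' - qf f x‖ ≤ md s * (A * (2 * (1 * e))) := by
  unfold qf
  rw [← Finset.sum_sub_distrib]
  refine (norm_sum_le _ _).trans ?_
  calc ∑ q : Mon s, ‖f q * (x' q.1.1 * x' q.1.2) - f q * (x q.1.1 * x q.1.2)‖
      ≤ ∑ _q : Mon s, A * (2 * (1 * e)) := by
        refine Finset.sum_le_sum fun q _ => ?_
        rw [← mul_sub, norm_mul]
        exact mul_le_mul (hf q) (prod_lip (hx' _) (hx _) (hd _) (hd _)) (norm_nonneg _) hA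
    _ = md s * (A * (2 * (1 * e))) := by
        rw [Finset.sum_const, Finset.card_univ, nsmul_eq_mul]

theorem norm_ite_le {P : Prop} [Decidable P] {a : ℂ} {M : ℝ} (h : ‖a‖ ≤ M) :
    ‖if P then a else 0‖ ≤ M := by
  split_ifs
  · exact h
  · rw [norm_zero]
    exact (norm_nonneg _).trans h

theorem dq_bd (f : Mon s → ℂ) (hA : 0 ≤ A) (hf : ∀ q, ‖f q‖ ≤ A) (hx : ∀ j, ‖x j‖ ≤ 1)
    (j : Fin s) : ‖dq f x j‖ ≤ md s * (A * 2) := by
  unfold dq
  refine (norm_sum_le _ _).trans ?_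
  calc _ ≤ ∑ _q : Mon s, A * 2 := by
        refine Finset.sum_le_sum fun q _ => ?_
        rw [norm_mul]
        refine mul_le_mul (hf q) ?_ (norm_nonneg _) hA
        refine (norm_add_le _ _).trans ?_
        have h1 := norm_ite_le (P := q.1.1 = j) (hx q.1.2)
        have h2 := norm_ite_le (P := q.1.2 = j) (hx q.1.1)
        linarith
    _ = md s * (A * 2) := by
        rw [Finset.sum_const, Finset.card_univ, nsmul_eq_mul]

theorem dq_lip (f : Mon s → ℂ) (hA : 0 ≤ A) (hf : ∀ q, ‖f q‖ ≤ A)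
    (hd : ∀ j, ‖x' j - x j‖ ≤ e) (j : Fin s) :
    ‖dq f x' j - dq f x j‖ ≤ md s * (A * (2 * e)) := by
  unfold dq
  rw [← Finset.sum_sub_distrib]
  refine (norm_sum_le _ _).trans ?_
  calc _ ≤ ∑ _q : Mon s, A * (2 * e) := by
        refine Finset.sum_le_sum fun q _ => ?_
        rw [← mul_sub, norm_mul]
        refine mul_le_mul (hf q) ?_ (norm_nonneg _) hA
        have h0 : ((if q.1.1 = j then x' q.1.2 else 0) + (if q.1.2 = j then x' q.1.1 else 0)) -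
            ((if q.1.1 = j then x q.1.2 else 0) + (if q.1.2 = j then x q.1.1 else 0)) =
            (if q.1.1 = j then x' q.1.2 - x q.1.2 else 0) +
            (if q.1.2 = j then x' q.1.1 - x q.1.1 else 0) := by
          split_ifs <;> ring
        rw [h0]
        refine (norm_add_le _ _).trans ?_
        have h1 := norm_ite_le (P := q.1.1 = j) (hd q.1.2)
        have h2 := norm_ite_le (P := q.1.2 = j) (hd q.1.1)
        linarith
    _ = md s * (A * (2 * e)) := by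
        rw [Finset.sum_const, Finset.card_univ, nsmul_eq_mul]

theorem jm_lip (F : Fin 2 → Mon s → ℂ) (hA : 0 ≤ A) (hF : ∀ i q, ‖F i q‖ ≤ A)
    (hx : ∀ j, ‖x j‖ ≤ 1) (hx' : ∀ j, ‖x' j‖ ≤ 1) (hd : ∀ j, ‖x' j - x j‖ ≤ e) (j l : Fin s) :
    ‖jm F x' j l - jm F x j l‖ ≤ 16 * (md s : ℝ) ^ 2 * A ^ 2 * e := by
  unfold jm
  have h1 : ‖dq (F 0) x' j * dq (F 1) x' l - dq (F 0) x j * dq (F 1) x l‖ ≤
      2 * ((md s * (A * 2)) * (md s * (A * (2 * e)))) :=
    prod_lip (dq_bd _ hA (hF 0) hx' j) (dq_bd _ hA (hF 1) hx l) (dq_lip _ hA (hF 0) hd j)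
      (dq_lip _ hA (hF 1) hd l)
  have h2 : ‖dq (F 0) x' l * dq (F 1) x' j - dq (F 0) x l * dq (F 1) x j‖ ≤
      2 * ((md s * (A * 2)) * (md s * (A * (2 * e)))) :=
    prod_lip (dq_bd _ hA (hF 0) hx' l) (dq_bd _ hA (hF 1) hx j) (dq_lip _ hA (hF 0) hd l)
      (dq_lip _ hA (hF 1) hd j)
  have h3 : dq (F 0) x' j * dq (F 1) x' l - dq (F 0) x' l * dq (F 1) x' j -
      (dq (F 0) x j * dq (F 1) x l - dq (F 0) x l * dq (F 1) x j) =
      (dq (F 0) x' j * dq (F 1) x' l - dq (F 0) x j * dq (F 1) x l) -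
      (dq (F 0) x' l * dq (F 1) x' j - dq (F 0) x l * dq (F 1) x j) := by ring
  rw [h3]
  refine (norm_sub_le _ _).trans ?_
  calc _ ≤ 2 * ((md s * (A * 2)) * (md s * (A * (2 * e)))) +
        2 * ((md s * (A * 2)) * (md s * (A * (2 * e)))) := add_le_add h1 h2
    _ = 16 * (md s : ℝ) ^ 2 * A ^ 2 * e := by ring

end lip

theorem qf_smul {s : ℕ} (f : Mon s → ℂ) (x : Fin s → ℂ) (u : ℂ) :
    qf f (fun j => u * x j) = u ^ 2 * qf f x := by
  unfold qf
  rw [Finset.mul_sum]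
  refine Finset.sum_congr rfl fun q _ => ?_
  ring

theorem dq_smul {s : ℕ} (f : Mon s → ℂ) (x : Fin s → ℂ) (u : ℂ) (j : Fin s) :
    dq f (fun j => u * x j) j = u * dq f x j := by
  unfold dq
  rw [Finset.mul_sum]
  refine Finset.sum_congr rfl fun q _ => ?_
  split_ifs <;> ring

theorem jm_smul {s : ℕ} (F : Fin 2 → Mon s → ℂ) (x : Fin s → ℂ) (u : ℂ) (j l : Fin s) :
    jm F (fun j => u * x j) j l = u ^ 2 * jm F x j l := by
  unfold jm
  rw [dq_smul, dq_smul, dq_smul, dq_smul]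
  ring

/-- the normalised zero -/
theorem rn_one {K : Type} [Field K] [NumberField K] {w : InfinitePlace K} {s : ℕ} {d : ℝ} {A : ℕ}
    {c : Fin 2 → Mon s → 𝓞 K} (h : RN w d A c) :
    ∃ (x : Fin s → ℂ) (i₀ : Fin s), x i₀ = 1 ∧ (∀ j, ‖x j‖ ≤ 1) ∧ Rl w x ∧
      (∀ i, qf (ce w c i) x = 0) ∧ ∀ j l, ‖jm (ce w c) x j l‖ < d * (A : ℝ) ^ 2 := by
  obtain ⟨x, hr, hx, ⟨i₀, hi₀⟩, hq, hj⟩ := h
  have hne : x i₀ ≠ 0 := by
    intro h0
    rw [h0, norm_zero] at hi₀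
    exact zero_ne_one hi₀
  have hu : ‖(x i₀)⁻¹‖ = 1 := by rw [norm_inv, hi₀, inv_one]
  refine ⟨fun j => (x i₀)⁻¹ * x j, i₀, inv_mul_cancel₀ hne, fun j => ?_, fun hw j => ?_,
    fun i => ?_, fun j l => ?_⟩
  · rw [norm_mul, hu, one_mul]
    exact hx j
  · change ((x i₀)⁻¹ * x j).im = 0
    rw [Complex.mul_im, Complex.inv_im, hr hw i₀, hr hw j]
    simp
  · rw [qf_smul, hq i, mul_zero]
  · rw [jm_smul, norm_mul, norm_pow, hu, one_pow, one_mul]
    exact hj j l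

/-! ### the grid -/

/-- the grid values: numerators -/
noncomputable def gv (e N : ℕ) : Finset (ℤ × ℤ) :=
  Finset.Icc (-(N : ℤ)) N ×ˢ (if e = 1 then {0} else Finset.Icc (-(N : ℤ)) N)

/-- the grid values -/
noncomputable def va (N : ℕ) (q : ℤ × ℤ) : ℂ := ((q.1 : ℂ) + (q.2 : ℂ) * Complex.I) / N

theorem card_gv {e N : ℕ} (he : e = 1 ∨ e = 2) : (gv e N).card = (2 * N + 1) ^ e := by
  unfold gv
  rw [Finset.card_product, Int.card_Icc]
  rcases he with h | h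
  · rw [h, if_pos rfl, Finset.card_singleton, pow_one, mul_one]
    omega
  · rw [h, if_neg (by norm_num), Int.card_Icc, sq]
    congr 1 <;> omega

/-- truncation -/
theorem exists_trunc (t : ℝ) : ∃ k : ℤ, |(k : ℝ)| ≤ |t| ∧ |(k : ℝ) - t| ≤ 1 := by
  rcases le_total 0 t with h | h
  · refine ⟨⌊t⌋, ?_, ?_⟩
    · have h1 : (0 : ℝ) ≤ ⌊t⌋ := by exact_mod_cast Int.floor_nonneg.2 h
      rw [abs_of_nonneg h1, abs_of_nonneg h]
      exact Int.floor_le t
    · rw [abs_le]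
      constructor
      · linarith [Int.lt_floor_add_one t]
      · linarith [Int.floor_le t]
  · refine ⟨⌈t⌉, ?_, ?_⟩
    · have h1 : ((⌈t⌉ : ℤ) : ℝ) ≤ 0 := by
        have : ⌈t⌉ ≤ 0 := Int.ceil_le.2 (by simpa using h)
        exact_mod_cast this
      rw [abs_of_nonpos h1, abs_of_nonpos h]
      linarith [Int.le_ceil t]
    · rw [abs_le]
      constructor
      · linarith [Int.le_ceil t]
      · linarith [Int.ceil_lt_add_one t]

theorem exists_gv {e N : ℕ} (hN : 1 ≤ N) {x : ℂ} (hx : ‖x‖ ≤ 1) (he : e = 1 → x.im = 0) :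
    ∃ q ∈ gv e N, ‖va N q‖ ≤ 1 ∧ ‖va N q - x‖ ≤ 2 / N := by
  have hN' : (0 : ℝ) < N := by exact_mod_cast hN
  obtain ⟨k, hk1, hk2⟩ := exists_trunc (N * x.re)
  obtain ⟨l, hl1, hl2⟩ := exists_trunc (N * x.im)
  have hre : |x.re| ≤ 1 := (Complex.abs_re_le_norm x).trans hx
  have him : |x.im| ≤ 1 := (Complex.abs_im_le_norm x).trans hx
  have hk3 : |(k : ℝ)| ≤ N := by
    refine hk1.trans ?_
    rw [abs_mul, abs_of_pos hN']
    nlinarith
  have hl3 : |(l : ℝ)| ≤ N := by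
    refine hl1.trans ?_
    rw [abs_mul, abs_of_pos hN']
    nlinarith
  have hmem : ∀ z : ℤ, |(z : ℝ)| ≤ N → z ∈ Finset.Icc (-(N : ℤ)) N := by
    intro z hz
    rw [abs_le] at hz
    rw [Finset.mem_Icc]
    constructor
    · exact_mod_cast hz.1
    · exact_mod_cast hz.2
  refine ⟨(k, l), ?_, ?_, ?_⟩
  · unfold gv
    rw [Finset.mem_product]
    refine ⟨hmem k hk3, ?_⟩
    change l ∈ _
    split_ifs with h
    · rw [he h, mul_zero, abs_zero] at hl1
      have h2 : (l : ℝ) = 0 := abs_nonpos_iff.1 hl1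
      rw [Finset.mem_singleton]
      exact_mod_cast h2
    · exact hmem l hl3
  · unfold va
    rw [norm_div, Complex.norm_natCast, div_le_one hN']
    have h1 : ‖((k : ℂ) + (l : ℂ) * Complex.I)‖ ^ 2 ≤ (N : ℝ) ^ 2 := by
      have h2 : ((k : ℂ) + (l : ℂ) * Complex.I) = ((k : ℝ) : ℂ) + ((l : ℝ) : ℂ) * Complex.I := by
        push_cast
        ring
      have h3 : ‖x‖ ^ 2 = x.re ^ 2 + x.im ^ 2 := by
        rw [Complex.sq_norm, Complex.normSq_apply]
        ring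
      have h4 : x.re ^ 2 + x.im ^ 2 ≤ 1 := by
        rw [← h3]
        exact pow_le_one₀ (norm_nonneg _) hx
      rw [h2, Complex.sq_norm, Complex.normSq_add_mul_I]
      have h5 : (k : ℝ) ^ 2 ≤ (N * x.re) ^ 2 := sq_le_sq.2 hk1
      have h6 : (l : ℝ) ^ 2 ≤ (N * x.im) ^ 2 := sq_le_sq.2 hl1
      nlinarith [sq_nonneg (N : ℝ)]
    exact (pow_le_pow_iff_left₀ (norm_nonneg _) hN'.le two_ne_zero).1 h1
  · unfold va
    have h1 : ((k : ℂ) + (l : ℂ) * Complex.I) / N - x =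
        ((((k : ℝ) - N * x.re : ℝ) : ℂ) + (((l : ℝ) - N * x.im : ℝ) : ℂ) * Complex.I) / N := by
      have h2 : (N : ℂ) ≠ 0 := by exact_mod_cast hN'.ne'
      rw [div_sub' h2]
      congr 1
      conv_lhs => rw [← Complex.re_add_im x]
      push_cast
      ring
    change ‖((k : ℂ) + (l : ℂ) * Complex.I) / N - x‖ ≤ 2 / N
    rw [h1, norm_div, Complex.norm_natCast]
    refine div_le_div_of_nonneg_right ?_ hN'.le
    refine (norm_add_le _ _).trans ?_
    rw [norm_mul, Complex.norm_I, mul_one, Complex.norm_real, Complex.norm_real,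
      Real.norm_eq_abs, Real.norm_eq_abs]
    linarith

/-- the grid -/
noncomputable def grid (e s N : ℕ) (i₀ : Fin s) : Finset (Fin s → ℤ × ℤ) :=
  Fintype.piFinset fun j => if j = i₀ then {((N : ℤ), (0 : ℤ))} else gv e N

theorem card_grid {e : ℕ} (he : e = 1 ∨ e = 2) (s N : ℕ) (i₀ : Fin s) :
    (grid e s N i₀).card = ((2 * N + 1) ^ e) ^ (s - 1) := by
  classical
  unfold grid
  rw [Fintype.card_piFinset]
  have h1 : ∀ j : Fin s, (if j = i₀ then {((N : ℤ), (0 : ℤ))} else gv e N).card =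
      if j = i₀ then 1 else (2 * N + 1) ^ e := by
    intro j
    split_ifs
    · exact Finset.card_singleton _
    · exact card_gv he
  rw [Finset.prod_congr rfl fun j _ => h1 j, Finset.prod_ite, Finset.prod_const_one, one_mul,
    Finset.prod_const]
  congr 1
  rw [Finset.filter_ne' Finset.univ i₀, Finset.card_erase_of_mem (Finset.mem_univ _),
    Finset.card_univ, Fintype.card_fin]

theorem va_one {N : ℕ} (hN : 1 ≤ N) : va N ((N : ℤ), (0 : ℤ)) = 1 := by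
  unfold va
  have h2 : (N : ℂ) ≠ 0 := by
    have : N ≠ 0 := by omega
    exact_mod_cast this
  push_cast
  rw [zero_mul, add_zero]
  exact div_self h2

/-- the grid point next to a vector -/
theorem exists_grid {e s N : ℕ} (hN : 1 ≤ N) {x : Fin s → ℂ} {i₀ : Fin s} (h0 : x i₀ = 1)
    (hx : ∀ j, ‖x j‖ ≤ 1) (hr : e = 1 → ∀ j, (x j).im = 0) :
    ∃ k ∈ grid e s N i₀, ∀ j, ‖va N (k j)‖ ≤ 1 ∧ ‖va N (k j) - x j‖ ≤ 2 / N := by
  choose q hq1 hq2 using fun j => exists_gv (e := e) hN (hx j) (fun h => hr h j)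
  refine ⟨fun j => if j = i₀ then ((N : ℤ), (0 : ℤ)) else q j, ?_, fun j => ?_⟩
  · unfold grid
    rw [Fintype.mem_piFinset]
    intro j
    split_ifs with h
    · exact Finset.mem_singleton_self _
    · exact hq1 j
  · change ‖va N (if j = i₀ then ((N : ℤ), (0 : ℤ)) else q j)‖ ≤ 1 ∧
      ‖va N (if j = i₀ then ((N : ℤ), (0 : ℤ)) else q j) - x j‖ ≤ 2 / N
    split_ifs with h
    · rw [va_one hN, h, h0, sub_self, norm_one, norm_zero]
      exact ⟨le_refl _, by positivity⟩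
    · exact hq2 j

theorem card_bo (ι : Type) [Fintype ι] [DecidableEq ι] (A : ℕ) :
    ((bo ι A).card : ℝ) = (2 * (A : ℝ) + 1) ^ Fintype.card ι := by
  unfold bo
  rw [Fintype.card_piFinset, Finset.prod_const, Finset.card_univ, Int.card_Icc]
  have h : ((A : ℤ) + 1 - -(A : ℤ)).toNat = 2 * A + 1 := by omega
  rw [h]
  push_cast
  rfl

theorem pf_RNB (K : Type) [Field K] [NumberField K] (hRFX : T_RFX) (hLPC : T_LPC K)
    (_hCRD : T_CRD) : T_RNB K := by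
  classical
  intro ι _ _ ω s hs
  obtain ⟨C₁, hC₁, hL⟩ := hLPC ι ω
  have hm0 : (0 : ℝ) ≤ md s := Nat.cast_nonneg _
  obtain ⟨K₁, hK₁⟩ : ∃ K₁ : ℝ, K₁ = 32 * (md s : ℝ) ^ 2 * C₁ ^ 2 + 4 * md s * C₁ + 2 := ⟨_, rfl⟩
  have hK1 : 1 ≤ K₁ := by
    rw [hK₁]
    have h1 : 0 ≤ 32 * (md s : ℝ) ^ 2 * C₁ ^ 2 := by positivity
    have h2 : 0 ≤ 4 * (md s : ℝ) * C₁ := by positivity
    linarith
  obtain ⟨Ca, hCa, hRa⟩ := hRFX 1 s C₁ K₁ le_rfl hs hC₁ hK1
  obtain ⟨Cb, hCb, hRb⟩ := hRFX 2 s C₁ K₁ (by norm_num) hs hC₁ hK1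
  obtain ⟨C, hC⟩ : ∃ C : ℝ, C = max Ca Cb := ⟨_, rfl⟩
  have hCa' : Ca ≤ C := by rw [hC]; exact le_max_left _ _
  have hCb' : Cb ≤ C := by rw [hC]; exact le_max_right _ _
  have hC1 : 1 ≤ C := hCa.trans hCa'
  have hR : ∀ e : ℕ, e = 1 ∨ e = 2 → ∀ (α : Type) (X : Finset α) (σ : α → ℂ) (A : ℝ) (N : ℕ),
      1 ≤ N → C * N ≤ A → EqD e C₁ A X σ → ∀ (i₀ : Fin s) (x : Fin s → ℂ), x i₀ = 1 →
      (∀ j, ‖x j‖ ≤ 1) → ∀ S : Finset (Fin 2 → Mon s → α),
      (∀ c ∈ S, (∀ i p, c i p ∈ X) ∧ (∀ i, ‖qf (fun p => σ (c i p)) x‖ ≤ K₁ * A / N) ∧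
        ∀ j l, ‖jm (fun i p => σ (c i p)) x j l‖ ≤ K₁ * A ^ 2 / N) →
      (S.card : ℝ) * (N : ℝ) ^ (e * s) ≤ C * (X.card : ℝ) ^ (2 * md s) := by
    intro e he α X σ A N hN hCN hE i₀ x hx0 hx S hS
    have hN0 : (0 : ℝ) ≤ N := Nat.cast_nonneg _
    rcases he with h | h
    · rw [h] at hE ⊢
      have h1 := hRa α X σ A N hN ((mul_le_mul_of_nonneg_right hCa' hN0).trans hCN) hE i₀ x hx0 hx
        S hS
      exact h1.trans (mul_le_mul_of_nonneg_right hCa' (by positivity))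
    · rw [h] at hE ⊢
      have h1 := hRb α X σ A N hN ((mul_le_mul_of_nonneg_right hCb' hN0).trans hCN) hE i₀ x hx0 hx
        S hS
      exact h1.trans (mul_le_mul_of_nonneg_right hCb' (by positivity))
  have hs0 : (1 : ℝ) ≤ s := by
    have : 1 ≤ s := by omega
    exact_mod_cast this
  refine ⟨s * 9 ^ (s - 1) * C, ?_, ?_⟩
  · have h1 : (1 : ℝ) ≤ 9 ^ (s - 1) := one_le_pow₀ (by norm_num)
    have h2 : (1 : ℝ) ≤ s * 9 ^ (s - 1) := by nlinarith
    nlinarith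
  intro d hd hd1
  obtain ⟨N, hN⟩ : ∃ N : ℕ, N = ⌈1 / d⌉₊ := ⟨_, rfl⟩
  have hN1 : 1 / d ≤ N := by
    rw [hN]
    exact Nat.le_ceil _
  have h1d : 1 ≤ 1 / d := by
    rw [le_div_iff₀ hd, one_mul]
    exact hd1
  have hN2 : (N : ℝ) < 1 / d + 1 := by
    rw [hN]
    exact Nat.ceil_lt_add_one (by positivity)
  have hNge : (1 : ℝ) ≤ N := h1d.trans hN1
  have hN1' : 1 ≤ N := by exact_mod_cast hNge
  have hN0 : (0 : ℝ) < N := by linarith
  have hinv : 1 / (N : ℝ) ≤ d := by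
    rw [div_le_iff₀ hN0]
    rw [div_le_iff₀ hd] at hN1
    linarith
  have hdN : d ≤ 2 / N := by
    rw [le_div_iff₀ hN0]
    have h2 : (N : ℝ) < 2 / d := by
      have h3 : (2 : ℝ) / d = 1 / d + 1 / d := by ring
      rw [h3]
      linarith
    rw [lt_div_iff₀ hd] at h2
    linarith
  refine ⟨max 1 ⌈C * N⌉₊, ?_⟩
  intro A hA w
  have hA1 : 1 ≤ A := (le_max_left _ _).trans hA
  have hCA : C * N ≤ A :=
    (Nat.le_ceil _).trans (by exact_mod_cast (le_max_right _ _).trans hA)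
  have hA0 : (0 : ℝ) ≤ A := Nat.cast_nonneg _
  have hCA0 : 0 ≤ C₁ * (A : ℝ) := by positivity
  have hE := hL A w hA1
  obtain ⟨e, hee⟩ : ∃ e : ℕ, e = w.mult := ⟨_, rfl⟩
  have he : e = 1 ∨ e = 2 := by
    rw [hee]
    unfold InfinitePlace.mult
    split_ifs
    · exact Or.inl rfl
    · exact Or.inr rfl
  have her : e = 1 → w.IsReal := by
    intro h
    rw [hee] at h
    unfold InfinitePlace.mult at h
    split_ifs at h with h1
    · exact h1
    · exact absurd h (by norm_num)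
  rw [← hee] at hE
  have hsub : ((bx ι s A).filter fun c => RN w d A (ec ω c)) ⊆
      (Finset.univ : Finset (Fin s)).biUnion fun i₀ => (grid e s N i₀).biUnion fun k =>
        (bx ι s A).filter fun c => (∀ j, ‖va N (k j)‖ ≤ 1) ∧
          (∀ i, ‖qf (ce w (ec ω c) i) (fun j => va N (k j))‖ ≤ K₁ * A / N) ∧
          ∀ j l, ‖jm (ce w (ec ω c)) (fun j => va N (k j)) j l‖ ≤ K₁ * (A : ℝ) ^ 2 / N := by
    intro c hc
    rw [Finset.mem_filter] at hc
    obtain ⟨hcb, hcr⟩ := hc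
    obtain ⟨x, i₀, hx0, hx, hrl, hq, hj⟩ := rn_one hcr
    obtain ⟨k, hk, hkx⟩ := exists_grid (e := e) hN1' hx0 hx (fun h j => hrl (her h) j)
    have hcA : ∀ i q, ‖ce w (ec ω c) i q‖ ≤ C₁ * A := by
      intro i q
      exact hE.1 (c i q) (Fintype.mem_piFinset.1 (Fintype.mem_piFinset.1 hcb i) q)
    rw [Finset.mem_biUnion]
    refine ⟨i₀, Finset.mem_univ _, ?_⟩
    rw [Finset.mem_biUnion]
    refine ⟨k, hk, ?_⟩
    rw [Finset.mem_filter]
    refine ⟨hcb, fun j => (hkx j).1, fun i => ?_, fun j l => ?_⟩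
    · have h1 := qf_lip (ce w (ec ω c) i) hCA0 (hcA i) hx (fun j => (hkx j).1)
        (fun j => (hkx j).2)
      rw [hq i, sub_zero] at h1
      refine h1.trans ?_
      rw [hK₁]
      have h2 : (md s : ℝ) * (C₁ * A * (2 * (1 * (2 / N)))) = 4 * md s * C₁ * A / N := by ring
      rw [h2]
      refine div_le_div_of_nonneg_right (mul_le_mul_of_nonneg_right ?_ hA0) hN0.le
      have h3 : 0 ≤ 32 * (md s : ℝ) ^ 2 * C₁ ^ 2 := by positivity
      linarith
    · have h1 := jm_lip (ce w (ec ω c)) hCA0 hcA hx (fun j => (hkx j).1)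
        (fun j => (hkx j).2) j l
      have h2 := (hj j l).le
      have h3 : ‖jm (ce w (ec ω c)) (fun j => va N (k j)) j l‖ ≤
          ‖jm (ce w (ec ω c)) (fun j => va N (k j)) j l - jm (ce w (ec ω c)) x j l‖ +
          ‖jm (ce w (ec ω c)) x j l‖ := by
        have h4 := norm_add_le (jm (ce w (ec ω c)) (fun j => va N (k j)) j l -
          jm (ce w (ec ω c)) x j l) (jm (ce w (ec ω c)) x j l)
        rwa [sub_add_cancel] at h4
      refine h3.trans ((add_le_add h1 h2).trans ?_)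
      have h5 : d * (A : ℝ) ^ 2 ≤ 2 / N * (A : ℝ) ^ 2 :=
        mul_le_mul_of_nonneg_right hdN (sq_nonneg _)
      have h6 : 16 * (md s : ℝ) ^ 2 * (C₁ * (A : ℝ)) ^ 2 * (2 / N) + 2 / N * (A : ℝ) ^ 2 =
          (32 * (md s : ℝ) ^ 2 * C₁ ^ 2 + 2) * (A : ℝ) ^ 2 / N := by ring
      have h7 : (32 * (md s : ℝ) ^ 2 * C₁ ^ 2 + 2) * (A : ℝ) ^ 2 / N ≤
          K₁ * (A : ℝ) ^ 2 / N := by
        refine div_le_div_of_nonneg_right (mul_le_mul_of_nonneg_right ?_ (sq_nonneg _)) hN0.le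
        rw [hK₁]
        have h8 : 0 ≤ 4 * (md s : ℝ) * C₁ := by positivity
        linarith
      linarith
  obtain ⟨B, hB⟩ : ∃ B : ℝ, B = (2 * (A : ℝ) + 1) ^ (2 * md s * Fintype.card ι) := ⟨_, rfl⟩
  have hB0 : 0 < B := by
    rw [hB]
    positivity
  have hXB : ((bo ι A).card : ℝ) ^ (2 * md s) = B := by
    rw [card_bo, ← pow_mul, hB, mul_comm (Fintype.card ι)]
  have hNs : (0 : ℝ) < (N : ℝ) ^ (e * s) := by positivity
  have hone : ∀ i₀ : Fin s, ∀ k ∈ grid e s N i₀,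
      (((bx ι s A).filter fun c => (∀ j, ‖va N (k j)‖ ≤ 1) ∧
          (∀ i, ‖qf (ce w (ec ω c) i) (fun j => va N (k j))‖ ≤ K₁ * A / N) ∧
          ∀ j l, ‖jm (ce w (ec ω c)) (fun j => va N (k j)) j l‖ ≤
            K₁ * (A : ℝ) ^ 2 / N).card : ℝ) ≤ C * B / (N : ℝ) ^ (e * s) := by
    intro i₀ k hk
    by_cases hk1 : ∀ j, ‖va N (k j)‖ ≤ 1
    · have hk0 : va N (k i₀) = 1 := by
        have h1 := Fintype.mem_piFinset.1 hk i₀
        rw [if_pos rfl, Finset.mem_singleton] at h1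
        rw [h1, va_one hN1']
      rw [le_div_iff₀ hNs, ← hXB]
      refine hR e he (ι → ℤ) (bo ι A) (fun v => w.embedding (el ω v : K)) A N hN1' hCA hE i₀
        (fun j => va N (k j)) hk0 hk1 _ ?_
      intro c hc
      rw [Finset.mem_filter] at hc
      exact ⟨fun i p => Fintype.mem_piFinset.1 (Fintype.mem_piFinset.1 hc.1 i) p, hc.2.2.1,
        hc.2.2.2⟩
    · rw [Finset.filter_false_of_mem fun c _ h => hk1 h.1, Finset.card_empty, Nat.cast_zero]
      positivity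
  have hcard : (((bx ι s A).filter fun c => RN w d A (ec ω c)).card : ℝ) ≤
      ∑ i₀ : Fin s, ∑ k ∈ grid e s N i₀, C * B / (N : ℝ) ^ (e * s) := by
    have h1 := (Finset.card_le_card hsub).trans Finset.card_biUnion_le
    refine (Nat.cast_le.2 h1).trans ?_
    rw [Nat.cast_sum]
    refine Finset.sum_le_sum fun i₀ _ => ?_
    refine (Nat.cast_le.2 Finset.card_biUnion_le).trans ?_
    rw [Nat.cast_sum]
    exact Finset.sum_le_sum fun k hk => hone i₀ k hk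
  refine hcard.trans ?_
  have hsum : ∑ i₀ : Fin s, ∑ k ∈ grid e s N i₀, C * B / (N : ℝ) ^ (e * s) =
      s * (((2 * (N : ℝ) + 1) ^ e) ^ (s - 1) * (C * B / (N : ℝ) ^ (e * s))) := by
    have h1 : ∀ i₀ : Fin s, ∑ k ∈ grid e s N i₀, C * B / (N : ℝ) ^ (e * s) =
        ((2 * (N : ℝ) + 1) ^ e) ^ (s - 1) * (C * B / (N : ℝ) ^ (e * s)) := by
      intro i₀
      rw [Finset.sum_const, card_grid he, nsmul_eq_mul]
      push_cast
      rfl
    rw [Finset.sum_congr rfl fun i₀ _ => h1 i₀, Finset.sum_const, Finset.card_univ,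
      Fintype.card_fin, nsmul_eq_mul]
  rw [hsum, ← hB]
  have hpow : ((2 * (N : ℝ) + 1) ^ e) ^ (s - 1) ≤ 9 ^ (s - 1) * ((N : ℝ) ^ e) ^ (s - 1) := by
    rw [← mul_pow]
    refine pow_le_pow_left₀ (by positivity) ?_ _
    calc (2 * (N : ℝ) + 1) ^ e ≤ (3 * (N : ℝ)) ^ e :=
          pow_le_pow_left₀ (by positivity) (by linarith) _
      _ = 3 ^ e * (N : ℝ) ^ e := mul_pow _ _ _
      _ ≤ 9 * (N : ℝ) ^ e := by
          refine mul_le_mul_of_nonneg_right ?_ (by positivity)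
          rcases he with h | h <;> rw [h] <;> norm_num
  have hCB : 0 ≤ C * B / (N : ℝ) ^ (e * s) := by positivity
  have hNe : 1 / (N : ℝ) ^ e ≤ d := by
    refine le_trans ?_ hinv
    refine one_div_le_one_div_of_le hN0 ?_
    rcases he with h | h
    · rw [h, pow_one]
    · rw [h]
      nlinarith
  calc (s : ℝ) * (((2 * (N : ℝ) + 1) ^ e) ^ (s - 1) * (C * B / (N : ℝ) ^ (e * s)))
      ≤ s * (9 ^ (s - 1) * ((N : ℝ) ^ e) ^ (s - 1) * (C * B / (N : ℝ) ^ (e * s))) :=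
        mul_le_mul_of_nonneg_left (mul_le_mul_of_nonneg_right hpow hCB) (by linarith)
    _ = s * 9 ^ (s - 1) * C * B * (1 / (N : ℝ) ^ e) := by
        have h1 : (N : ℝ) ^ (e * s) = ((N : ℝ) ^ e) ^ (s - 1) * (N : ℝ) ^ e := by
          rw [← pow_succ, ← pow_mul]
          congr 2
          omega
        rw [h1]
        field_simp
    _ ≤ s * 9 ^ (s - 1) * C * B * d :=
        mul_le_mul_of_nonneg_left hNe (by positivity)
    _ = s * 9 ^ (s - 1) * C * d * B := by ring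

end Pool.Agent.H70.RK
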