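import Pool.Agent.H70.RK.T2

/-!
# Being good does not see a block
-/

set_option autoImplicit false

namespace Pool.Agent.H70.RK

open Finset Pool.Agent.H6.NB Pool.Agent.H70.OQ Pool.Agent.H78.XQ
open Pool.Agent.H70.RC (Bad)

theorem card_Li (n N : ℕ) : Fintype.card (Li n N) ≤ 2 ^ (2 * N) := by
  have h1 : Function.Injective (fun (s : Li n N) (i : Fin N) => s.1[(i : ℕ)]?) := by
    intro s s' h
    apply Subtype.ext
    apply List.ext_getElem?
    intro i
    by_cases hi : i < N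
    · exact congrFun h ⟨i, hi⟩
    · have h2 := s.2.2
      have h3 := s'.2.2
      rw [List.getElem?_eq_none (by omega), List.getElem?_eq_none (by omega)]
  have h2 := Fintype.card_le_of_injective _ h1
  rw [Fintype.card_fun, Fintype.card_option, Fintype.card_bool, Fintype.card_fin] at h2
  calc Fintype.card (Li n N) ≤ (2 + 1) ^ N := h2
    _ ≤ (2 ^ 2) ^ N := Nat.pow_le_pow_left (by norm_num) N
    _ = 2 ^ (2 * N) := by rw [← pow_mul]

theorem gsz_mono {s s' : ℕ} (hs : s ≤ s') : ∀ (m : ℕ) {T : Type} (G : Gt T m), gsz s m G → gsz s' m G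
  | 0, _, _, _ => trivial
  | m + 1, T, G, h => ⟨gsz_mono hs m (T := List T) G h.1, fun L hL => (h.2 L hL).trans hs⟩

theorem adp_mono {V α : Type} {q : ((V → Bool) → Bool) → Prop} {c : ℕ} {g : (V → Bool) → α}
    (h : Adp q c g) : ∀ c', c ≤ c' → Adp q c' g := by
  induction h with
  | pure c a => exact fun c' _ => Adp.pure c' a
  | ask c p g g0 g1 hp h0 h1 hg1 hg0 ih0 ih1 =>
    intro c' hc
    obtain ⟨e, rfl⟩ : ∃ e, c' = e + 1 := ⟨c' - 1, by omega⟩
    exact Adp.ask e p g g0 g1 hp (ih0 e (by omega)) (ih1 e (by omega)) hg1 hg0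

open Classical in
/-- the condition that the seeds are good is a formula -/
theorem good_cl (hGDC : T_GDC) (hCVF : T_CVF) (hGTL : T_GTL) (hCLB : Pool.Agent.H6.NB.T_CLB)
    {k : ℕ} (V : ℕ → Machine k) (G : List Bool → Gt Pool.Agent.H6.NB.DT k) (t : List Bool → ℕ)
    (hG : Gf V G t) (n N e : ℕ) (hN2 : 2 ≤ N) (hN : (8 * N) ^ (k + 1) ≤ 2 ^ e)
    (hpa : Function.Injective (pa (k := k) (n := n) (N := N)))
    (D : Dat k) (X : (Fin n → Bool) → Bool) (Y : Type) (H : Hi k n N) (g : Ar k n N)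
    (P : (Y → Bool) → Bl k n N) (hl : Lt fun y => lbv V D X g (P y)) :
    Cl Y (2 ^ 2 ^ e) (4 * k + 8) fun y => decide (GoodS V G D X (H, g, P y)) := by
  have hN1 : 8 * N ≤ (8 * N) ^ (k + 1) := by
    calc 8 * N = (8 * N) ^ 1 := (pow_one _).symm
      _ ≤ (8 * N) ^ (k + 1) := Nat.pow_le_pow_right (by omega) (by omega)
  have h2S : 2 ≤ 2 ^ 2 ^ e := by
    calc 2 = 2 ^ 1 := rfl
      _ ≤ 2 ^ 2 ^ e := Nat.pow_le_pow_right (by norm_num) Nat.one_le_two_pow
  have hts : ∀ s : Li n N, t s.1 + 1 ≤ N := fun s => by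
    have h1 := hG.sq s.1
    have h2 := s.2.2
    by_contra h3
    have h4 : N + 1 ≤ t s.1 + 1 := by omega
    have h5 : (N + 1) ^ 2 ≤ (t s.1 + 1) ^ 2 := Nat.pow_le_pow_left h4 2
    nlinarith
  have key : ∀ s : Li n N, Cl Y (2 ^ 2 ^ e) (4 * k + 6) fun y =>
      decide (gd (lbv V D X g (P y)) N k N pa H (gs V G D X g (P y) s.1)) := by
    intro s
    obtain ⟨g1, g2, -, -, -, -, g7⟩ := hGTL
    have h1 := hGDC Y (Li n N) (List Bool) (fun s => Ck s.1) N 0 k 0 ((8 * N) ^ (k + 1)) N N N N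
      (2 ^ 2 ^ e) (fun y => lbv V D X g (P y)) pa H
      (gmap (fun T => fun y => cv (fun w => ∃ x : Ce (Li n N) (fun s => Ck s.1) k, pa x = w)
        (lbv V D X g (P y)) [] T) k (G s.1)) hpa hN2 le_rfl le_rfl (by simp)
      (by rw [zero_add, pow_one]; omega) (by rw [zero_add]) (Nat.pow_le_pow_right (by norm_num) hN)
      hl ?_ ?_
    · have h2 : (fun y => decide (gd (lbv V D X g (P y)) N k N pa H (gs V G D X g (P y) s.1))) =
          fun y => decide (gd (lbv V D X g (P y)) N k N pa H (gmap (fun τ => τ y) k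
            (gmap (fun T => fun y => cv (fun w => ∃ x : Ce (Li n N) (fun s => Ck s.1) k, pa x = w)
            (lbv V D X g (P y)) [] T) k (G s.1)))) := by
        funext y
        rw [g7]
        rfl
      rw [h2]
      have h3 : 4 * (0 + k) + 6 = 4 * k + 6 := by omega
      rw [h3] at h1
      exact h1
    · rw [g2]
      exact gsz_mono (Nat.pow_le_pow_right (by norm_num) (hts s)) k (G s.1) (hG.len s.1)
    · intro τ hτ
      rw [g1, List.mem_map] at hτ
      obtain ⟨T, hT, rfl⟩ := hτ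
      have h3 := (hCVF (fun w => ∃ x : Ce (Li n N) (fun s => Ck s.1) k, pa x = w) (t s.1) T
        (hG.ql s.1 T hT)).2 Y ((8 * N) ^ (k + 1)) (fun y => lbv V D X g (P y)) hl
      intro π
      refine adp_mono (h3 π) N ((hG.dp s.1 T hT).trans ?_)
      have := hts s
      omega
  have hcard : Fintype.card (Li n N) ≤ 2 ^ 2 ^ e :=
    (card_Li n N).trans (Nat.pow_le_pow_right (by norm_num) (by omega))
  have h4 : Cl Y (2 ^ 2 ^ e) (4 * k + 6 + 1) fun y => decide (¬ GoodS V G D X (H, g, P y)) := by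
    refine (hCLB Y (2 ^ 2 ^ e) h2S).2.2.1 (4 * k + 6) (Li n N) (fun s y =>
      decide (gd (lbv V D X g (P y)) N k N pa H (gs V G D X g (P y) s.1))) (fun _ => false) _
      hcard key fun y => ?_
    rw [decide_eq_true_iff]
    unfold GoodS
    push Not
    simp only [decide_eq_false_iff_not]
  have h5 := (hCLB Y (2 ^ 2 ^ e) h2S).2.2.1 (4 * k + 6 + 1) Unit (fun _ y =>
      decide (¬ GoodS V G D X (H, g, P y))) (fun _ => false)
      (fun y => decide (GoodS V G D X (H, g, P y)))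
      (by rw [Fintype.card_unit]; omega) (fun _ => h4) (fun y => by
        rw [decide_eq_true_iff]
        simp only [decide_eq_false_iff_not, not_not, exists_const])
  exact h5

/-- BLG -/
theorem pf_BLG (hBLX : T_BLX) (hMAS : T_MAS) (hCLB : Pool.Agent.H6.NB.T_CLB) (hGDC : T_GDC)
    (hCVF : T_CVF) (hLIT : T_LIT) (hSTR : T_STR) (hGTL : T_GTL) : T_BLG := by
  classical
  intro k V G t hk hG n N hN2 hkn hnN hN D X H g P p b
  obtain ⟨l1, -, l3⟩ := hLIT k V n N D g P hk
  set r := p.1.1.length + 20 + k with hr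
  have hSz : Sz r (hl p).length (qs (hl p)) (rns (hl p)) (wln (hl p)) :=
    (hSTR k hk).2.2.2.2 ⟨p.1.1, p.2⟩
  have hnr : n + 20 ≤ r := by
    have := p.1.2.1
    omega
  have hd : 4 * k + 8 ≤ r + 2 := by
    have := p.1.2.1
    omega
  have hN' : (8 * N) ^ (k + 1) ≤ 2 ^ r ^ 2 := hN.trans (Nat.pow_le_pow_right (by norm_num)
    (Nat.pow_le_pow_left hnr 2))
  have h2Z : 2 ≤ 2 ^ 2 ^ r ^ 2 := by
    calc 2 = 2 ^ 1 := rfl
      _ ≤ 2 ^ 2 ^ r ^ 2 := Nat.pow_le_pow_right (by norm_num) Nat.one_le_two_pow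
  set B : CB (hl p) → Bool := fun c => decide (GoodS V G D X (H, g, Function.update P p c)) with hB
  have hc1 : ∀ P' u h', Cl (VV (qs (hl p))) (2 ^ 2 ^ r ^ 2) (r + 2)
      fun c => B (Function.update P' u c, h') := by
    intro P' u h'
    refine (hCLB _ _ h2Z).2.1 (4 * k + 8) (r + 2) _ hd (good_cl hGDC hCVF hGTL hCLB V G t hG n N
      (r ^ 2) hN2 hN' l1 D X (VV (qs (hl p))) H g
      (fun c => Function.update P p (Function.update P' u c, h')) ?_)
    have h1 := (((hLIT k V n N D g (Function.update P p (P', h')) hk).2.2) X).2.2.1 p u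
    simp only [Function.update_self, Function.update_idem] at h1
    exact h1
  have hc2 : ∀ P', Cl (Fin (wln (hl p)) → Bool) (2 ^ 2 ^ r ^ 2) (r + 2) fun h' => B (P', h') := by
    intro P'
    refine (hCLB _ _ h2Z).2.1 (4 * k + 8) (r + 2) _ hd (good_cl hGDC hCVF hGTL hCLB V G t hG n N
      (r ^ 2) hN2 hN' l1 D X (Fin (wln (hl p)) → Bool) H g
      (fun h' => Function.update P p (P', h')) ?_)
    have h1 := (((hLIT k V n N D g (Function.update P p (P', fun _ => false)) hk).2.2) X).2.2.2 p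
    simp only [Function.update_self, Function.update_idem] at h1
    exact h1
  have h3 := hBLX r (hl p).length (qs (hl p)) (rns (hl p)) (wln (hl p)) hSz b B hc1 hc2
  obtain ⟨h4, h5, -⟩ := hMAS (qs (hl p)) (hl p).length (rns (hl p)) (wln (hl p))
  have hbi : ∀ c, bi (B c) = if GoodS V G D X (H, g, Function.update P p c) then 1 else 0 := by
    intro c
    unfold bi
    by_cases hg : GoodS V G D X (H, g, Function.update P p c)
    · rw [if_pos (decide_eq_true hg), if_pos hg]
    · rw [if_neg hg, if_neg (by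
        rw [decide_eq_true_iff]
        exact hg)]
  simp only [hbi] at h3
  have hx : ∑ c : CB (hl p), m0 (qs (hl p)) (hl p).length (wln (hl p)) c *
      (if GoodS V G D X (H, g, Function.update P p c) then 1 else 0) ≤ 1 := by
    refine le_trans ?_ h5.le
    refine sum_le_sum fun c _ => ?_
    split_ifs
    · rw [mul_one]
    · rw [mul_zero]
      exact h4 c
  have he : (0 : ℝ) < (1 / 8) ^ r := by positivity
  have he2 : (1 / 8 : ℝ) ^ r / (4 * 2 ^ 2 ^ r) ≤ (1 / 8) ^ r / 4 := by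
    refine div_le_div_of_nonneg_left he.le (by norm_num) ?_
    have : (1 : ℝ) ≤ 2 ^ 2 ^ r := one_le_pow₀ (by norm_num)
    linarith
  have he3 : (1 / 8 : ℝ) ^ r ≤ (1 / 8) ^ (p.1.1.length + 20) :=
    pow_le_pow_of_le_one (by norm_num) (by norm_num) (by omega)
  nlinarith [h3, hx, he, he2, he3]

end Pool.Agent.H70.RK
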