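import Pool.Agent.H70.RK.T1

/-!
# The relativizing consequences of Σ_k ⊆ BQP: module targets, the oracle
-/

set_option autoImplicit false

namespace Pool.Agent.H70.RK

open Finset Filter Pool.Agent.H6.NB Pool.Agent.H70.OQ Pool.Agent.H78.XQ
open Pool.Agent.H70.RC (Term DNF pv fv psat run Bad Arry Right RightP sec arrp)

/-! ## Part D: the oracle -/

/-- STR: the strings of the positions. -/
def T_STR : Prop := ∀ k : ℕ, 1 ≤ k → Function.Injective (str (k := k)) ∧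
  (∀ p : Ps k, lvl p < (str p).length) ∧
  (∀ (s : List Bool) (a : Aa k s), s.length < (arrp s (flat a)).length) ∧
  (∀ (s s' : List Bool) (a : Aa k s) (a' : Aa k s'), arrp s (flat a) = arrp s' (flat a') → s = s') ∧
  ∀ p : Bx k, Sz (p.1.length + 20 + k) (hb p).length (qs (hb p)) (rns (hb p)) (wln (hb p))

/-- GTE: gates for the answers of the instances. -/
def T_GTE : Prop := ∀ (k : ℕ) (V : ℕ → Machine k), 1 ≤ k → ∃ G t, Gf V G t

/-- INS: the instance strings. -/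
def T_INS : Prop := ∀ (k : ℕ) (V : ℕ → Machine k) (O : List Bool → Bool) (i : ℕ) (x : List Bool),
  ans V O (inst (V i).c i x) ↔ x ∈ (V i).lang O

/-- ANL: the answer of an instance depends only on shorter strings. -/
def T_ANL : Prop := ∀ (k : ℕ) (V : ℕ → Machine k) (O O' : List Bool → Bool) (s : List Bool),
  (∀ w : List Bool, w.length < s.length → O w = O' w) → (ans V O s ↔ ans V O' s)

/-- BAS: the oracle with junk in the arrays. -/
def T_BAS : Prop := ∀ k : ℕ, 1 ≤ k → (∀ (D : Dat k) (p : Ps k), base D (str p) = val D p) ∧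
  ∀ (D : Dat k) (w : List Bool), (∀ p : Ps k, w ≠ str p) → base D w = false

/-- ORC: the values of the oracle. -/
def T_ORC : Prop := ∀ (k : ℕ) (V : ℕ → Machine k) (D : Dat k), 1 ≤ k →
  (∀ w, (∀ s, w ≠ star D s) → orc V D w = base D w) ∧
  (∀ s, (orc V D (star D s) = true ↔ ans V (orc V D) s)) ∧
  ∀ (D' : Dat k) (m : ℕ), Agr (fun i => i < m) D D' →
    (∀ p : Ps k, lvl p < m → orc V D (str p) = orc V D' (str p)) ∧
    ∀ w : List Bool, w.length ≤ m → orc V D w = orc V D' w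

/-- CON: contents of the blocks. -/
def T_CON : Prop := ∀ (k : ℕ) (p : Bx k) (b : Bool), 1 ≤ k → ∃ c : CB (hb p), okb (hb p) b c

/-- EXO: the exact algorithm. -/
def T_EXO : Prop := ∀ (k : ℕ) (V : ℕ → Machine k)
  (f : (n : ℕ) → ((Fin n → Bool) → Bool) → Option Bool) (D : Dat k), 1 ≤ k → D.Ok f →
  ∀ s, (ans V (orc V D) s → yesK k (orc V D) s = 1) ∧
    (¬ ans V (orc V D) s → yesK k (orc V D) s = 0)

/-- ORL: the oracle of a stage. -/
def T_ORL : Prop := ∀ (k : ℕ) (V : ℕ → Machine k) (n N : ℕ) (D : Dat k)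
  (X : (Fin n → Bool) → Bool) (a : Ad k n N) (g : Ar k n N) (P : Bl k n N), 1 ≤ k → n ≤ N →
  (∀ w : List Bool, w.length ≤ N → (¬ ∃ x : Ce (Li n N) (fun s => Ck s.1) k, pa x = w) →
    orc V (ina n N D X a g P) w = lbv V D X g P w) ∧
  (∀ x : Ce (Li n N) (fun s => Ck s.1) k, (∀ s, pa x ≠ pa ⟨s, a s⟩) →
    orc V (ina n N D X a g P) (pa x) = lbv V D X g P (pa x)) ∧
  ∀ s : Li n N, (orc V (ina n N D X a g P) (pa ⟨s, a s⟩) = true ↔
    ans V (orc V (ina n N D X a g P)) s.1)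

/-- LIT: the known bits. -/
def T_LIT : Prop := ∀ (k : ℕ) (V : ℕ → Machine k) (n N : ℕ) (D : Dat k) (g : Ar k n N)
  (P : Bl k n N), 1 ≤ k →
  Function.Injective (pa (k := k) (n := n) (N := N)) ∧ (Lt fun X => lbv V D X g P) ∧
  ∀ X : (Fin n → Bool) → Bool,
  (∀ x : Ce (Li n N) (fun s => Ck s.1) k, lbv V D X g P (pa x) = g x.1 x.2) ∧
  (∀ (g' : Ar k n N) (w : List Bool), (∀ x : Ce (Li n N) (fun s => Ck s.1) k, pa x ≠ w) →
    lbv V D X g P w = lbv V D X g' P w) ∧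
  (∀ (p : Bi k n N) (u : Fin (2 * (hl p).length) → Bool),
    Lt fun c => lbv V D X g (Function.update P p (Function.update (P p).1 u c, (P p).2))) ∧
  ∀ p : Bi k n N, Lt fun c => lbv V D X g (Function.update P p ((P p).1, c))

/-! ## Part E: good seeds -/

open Classical in
/-- BLG: being good does not see a block. -/
def T_BLG : Prop := ∀ (k : ℕ) (V : ℕ → Machine k) (G : List Bool → Gt Pool.Agent.H6.NB.DT k)
  (t : List Bool → ℕ), 1 ≤ k → Gf V G t → ∀ n N : ℕ, 2 ≤ N → 3 * k ≤ n → n ≤ N →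
  (8 * N) ^ (k + 1) ≤ 2 ^ (n + 20) ^ 2 → ∀ (D : Dat k) (X : (Fin n → Bool) → Bool)
    (H : Hi k n N) (g : Ar k n N) (P : Bl k n N) (p : Bi k n N) (b : Bool),
  ∑ c : CB (hl p), m0 (qs (hl p)) (hl p).length (wln (hl p)) c *
      (if GoodS V G D X (H, g, Function.update P p c) then 1 else 0) -
    (1 / 8) ^ (p.1.1.length + 20) ≤
  ∑ c : CB (hl p), mB (qs (hl p)) (hl p).length (rns (hl p)) (wln (hl p)) b c *
      (if GoodS V G D X (H, g, Function.update P p c) then 1 else 0)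

open Classical in
/-- RZG: for given blocks most hints and arrays are good. -/
def T_RZG : Prop := ∀ (k : ℕ) (V : ℕ → Machine k) (G : List Bool → Gt Pool.Agent.H6.NB.DT k)
  (t : List Bool → ℕ), 1 ≤ k → Gf V G t → ∀ n N : ℕ, 2 ≤ N → n ≤ N →
  4 * N ^ (k + 2) ≤ 2 ^ (4 * n) → ∀ (D : Dat k) (X : (Fin n → Bool) → Bool) (P : Bl k n N),
  (1 - 2 ^ (N + 1) * (k * (2 ^ N) ^ k * (3 * (4 * N ^ (k + 2) / 2 ^ (4 * n)) ^ N))) *
      ((Fintype.card (Hi k n N) : ℝ) * Fintype.card (Ar k n N)) ≤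
    ∑ H : Hi k n N, ∑ g : Ar k n N, if GoodS V G D X (H, g, P) then (1 : ℝ) else 0

open Classical in
/-- MUG: the mass of the good seeds. -/
def T_MUG : Prop := ∀ (k : ℕ) (V : ℕ → Machine k) (G : List Bool → Gt Pool.Agent.H6.NB.DT k)
  (t : List Bool → ℕ), 1 ≤ k → Gf V G t → ∀ n N : ℕ, 2 ≤ N → 3 * k ≤ n → n ≤ N →
  4 * N ^ (k + 2) ≤ 2 ^ (4 * n) → (8 * N) ^ (k + 1) ≤ 2 ^ (n + 20) ^ 2 → ∀ (D : Dat k)
    (X : (Fin n → Bool) → Bool),
  1 - (∑ p : Bi k n N, (1 / 8 : ℝ) ^ (p.1.1.length + 20) +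
    2 ^ (N + 1) * (k * (2 ^ N) ^ k * (3 * (4 * N ^ (k + 2) / 2 ^ (4 * n)) ^ N))) ≤
  ∑ σ : Se k n N, mu σ * (if GoodS V G D X σ then 1 else 0)

/-- MUM: the masses. -/
def T_MUM : Prop := ∀ k n N : ℕ, (∀ σ : Se k n N, 0 ≤ mu σ) ∧ ∑ σ : Se k n N, mu σ ≤ 1 ∧
  ∀ σ : Se k n N, mu σ ≠ 0 → okE σ

/-- NUM: estimates. -/
def T_NUM : Prop := ∀ k c : ℕ, 1 ≤ k → ∀ᶠ n in atTop, ∀ N : ℕ, N = n ^ (c + 1) + c + 1 →
  2 ≤ N ∧ 3 * k ≤ n ∧ n ≤ N ∧ 4 * N ^ (k + 2) ≤ 2 ^ (4 * n) ∧ (8 * N) ^ (k + 1) ≤ 2 ^ (n + 20) ^ 2 ∧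
  ∑ p : Bi k n N, (1 / 8 : ℝ) ^ (p.1.1.length + 20) +
    2 ^ (N + 1) * (k * (2 ^ N) ^ k * (3 * (4 * N ^ (k + 2) / 2 ^ (4 * n) : ℝ) ^ N)) ≤ (1 / 2) ^ 300 ∧
  ∑ p : Bi k n N, (1 / 8 : ℝ) ^ (p.1.1.length + 20) + ∑ s : Li n N, (1 / 4 : ℝ) ^ s.1.length ≤
    (1 / 2) ^ 300

open Classical in
/-- LST: the list of seeds. -/
def T_LST : Prop := ∀ (k : ℕ) (V : ℕ → Machine k) (G : List Bool → Gt Pool.Agent.H6.NB.DT k)
  (t : List Bool → ℕ), 1 ≤ k → Gf V G t → ∀ c : ℕ, ∀ᶠ n in atTop, ∀ N : ℕ, N = n ^ (c + 1) + c + 1 →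
  ∀ D : Dat k, ∃ l : Fin (2 ^ n + 1) → Se k n N, (∀ i, okE (l i)) ∧
    ∀ X : (Fin n → Bool) → Bool,
      100 * (univ.filter fun i => ¬ GoodS V G D X (l i)).card ≤ 2 ^ n + 1

/-- EVO: for good seeds the oracle is in P^(Σ_k). -/
def T_EVO : Prop := ∀ (k : ℕ) (V : ℕ → Machine k) (G : List Bool → Gt Pool.Agent.H6.NB.DT k)
  (t : List Bool → ℕ), 1 ≤ k → Gf V G t → ∀ c : ℕ, ∃ C : ℕ, ∀ n N : ℕ, 4 ≤ n →
  N = n ^ (c + 1) + c + 1 → ∀ (D : Dat k) (σ : Se k n N),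
    ∃ e : List Bool → ((Fin n → Bool) → Bool) → Bool,
      (∀ w, Adp (Qst (Fin n → Bool) (n ^ C + C) k) (n ^ C + C) (e w)) ∧
      ∀ X, GoodS V G D X σ → ∀ w : List Bool, w.length ≤ N → orc V (ins n N D X σ) w = e w X

/-- ESY: if an algorithm is always right then the function is easy. -/
def T_ESY : Prop := ∀ (k : ℕ) (V : ℕ → Machine k)
  (f : (n : ℕ) → ((Fin n → Bool) → Bool) → Option Bool) (Q : ℕ → QAlg) (c : ℕ), 1 ≤ k →
  (∀ n, (Q n).T ≤ n ^ c + c ∧ (Q n).Short (n ^ c + c)) →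
  ∃ C : ℕ, ∀ᶠ n in atTop, ∀ N : ℕ, N = n ^ (c + 1) + c + 1 → ∀ D : Dat k,
    (∀ X, ∀ σ : Se k n N, okE σ → Right (Q n) (orc V (ins n N D X σ)) (f n X)) →
    EasyK k n (n ^ C + C) (f n)

/-- ESX: if a set of algorithms is always right then the function is easy. -/
def T_ESX : Prop := ∀ (k : ℕ) (V : ℕ → Machine k)
  (f : (n : ℕ) → ((Fin n → Bool) → Bool) → Option Bool) (R : ℕ → Set QAlg) (c : ℕ), 1 ≤ k →
  (∀ n, ∀ A ∈ R n, A.T ≤ n ^ c + c ∧ A.Short (n ^ c + c)) →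
  ∃ C : ℕ, ∀ᶠ n in atTop, ∀ N : ℕ, N = n ^ (c + 1) + c + 1 → ∀ D : Dat k,
    (∀ X, ∀ σ : Se k n N, okE σ → RightP (R n) (orc V (ins n N D X σ)) (f n X)) →
    EasyKP k n (n ^ C + C) (f n)

/-! ## Part F: classical classes -/

/-- PLN: the oracle `lev` of a stage. -/
def T_PLN : Prop := ∀ (k : ℕ) (V : ℕ → Machine k) (n N L : ℕ) (D : Dat k)
  (X : (Fin n → Bool) → Bool) (a : Ad k n N) (g : Ar k n N) (P : Bl k n N), 1 ≤ k → n ≤ L →
  L ≤ N →
  (∀ w, lev V (ina n N D X a g P) n w = lbv V D X g P w) ∧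
  (∀ w : List Bool, w.length ≤ N → lev V (ina n N D X a g P) (N + 1) w =
    orc V (ina n N D X a g P) w) ∧
  (∀ (a' : Ad k n N) (g' : Ar k n N) (P' : Bl k n N), (∀ s : Li n N, s.1.length < L → a s = a' s) →
    (∀ s : Li n N, s.1.length < L → g s = g' s) → (∀ p : Bi k n N, p.1.1.length < L → P p = P' p) →
    (∀ w : List Bool, w.length ≤ L → lev V (ina n N D X a g P) L w = lev V (ina n N D X a' g' P') L w) ∧
    (g = g' → P = P' → ∀ w, lev V (ina n N D X a g P) L w = lev V (ina n N D X a' g' P') L w)) ∧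
  (∀ b : Li n N → Bool, (∀ s : Li n N, s.1.length = L →
      (b s = true ↔ ans V (lev V (ina n N D X a g P) L) s.1)) →
    ∀ w, lev V (ina n N D X a g P) (L + 1) w = lev V (ina n N D X a (fun s =>
      if s.1.length = L then Function.update (g s) (a s) (b s) else g s) P) L w) ∧
  (∀ p : Bi k n N, p.1.1.length = L →
    (∀ u : Fin (2 * (hl p).length) → Bool, Lt fun c => lev V (ina n N D X a g
      (Function.update P p (Function.update (P p).1 u c, (P p).2))) (L + 1)) ∧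
    Lt fun c => lev V (ina n N D X a g (Function.update P p ((P p).1, c))) (L + 1))

/-- The weight of a block: the blocks of the instances of length less than `L` encode the addresses. -/
noncomputable def mw {k n N : ℕ} (L : ℕ) (a : Ad k n N) (p : Bi k n N) (c : CB (hl p)) : ℝ :=
  if p.1.1.length < L then
    mB (qs (hl p)) (hl p).length (rns (hl p)) (wln (hl p)) (a p.1 p.2.1 p.2.2) c
  else m0 (qs (hl p)) (hl p).length (wln (hl p)) c

/-- STB: the answers of the instances of length `L` can be replaced by junk. -/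
def T_STB : Prop := ∀ (k : ℕ) (V : ℕ → Machine k) (n N L : ℕ) (D : Dat k)
  (X : (Fin n → Bool) → Bool) (P : Bl k n N) (Φ : (List Bool → Bool) → ℝ) (wt : Ad k n N → ℝ),
  1 ≤ k → n ≤ L → L ≤ N → (∀ O, 0 ≤ Φ O ∧ Φ O ≤ 1) → (∀ a, 0 ≤ wt a) →
  (∀ a a', (∀ s : Li n N, s.1.length ≠ L → a s = a' s) → wt a = wt a') →
  ∑ a : Ad k n N, ∑ g : Ar k n N, wt a * Φ (lev V (ina n N D X a g P) L) -
      (∑ s : Li n N, if s.1.length = L then (1 / 4 : ℝ) ^ L else 0) *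
        ∑ a : Ad k n N, ∑ _g : Ar k n N, wt a ≤
    ∑ a : Ad k n N, ∑ g : Ar k n N, wt a * Φ (lev V (ina n N D X a g P) (L + 1))

open Classical in
/-- STA: the blocks of the instances of length `L` can be replaced by random blocks. -/
def T_STA : Prop := ∀ (k d m : ℕ) (V : ℕ → Machine k) (n N L : ℕ) (D : Dat k)
  (X : (Fin n → Bool) → Bool) (a : Ad k n N) (g : Ar k n N) (W : (List Bool → Bool) → Bool)
  (b : Bool), 1 ≤ k → n ≤ L → L ≤ N → Ac d m W → d ≤ n → m ≤ 2 ^ (n + 20) ^ 2 →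
  ∑ P : Bl k n N, (∏ p, mw L a p (P p)) *
      (if W (lev V (ina n N D X a g P) (L + 1)) = b then 1 else 0) -
    (∑ p : Bi k n N, if p.1.1.length = L then (1 / 8 : ℝ) ^ (p.1.1.length + 20) else 0) ≤
  ∑ P : Bl k n N, (∏ p, mw (L + 1) a p (P p)) *
      (if W (lev V (ina n N D X a g P) (L + 1)) = b then 1 else 0)

open Classical in
/-- CLH: a formula does not see the answers. -/
def T_CLH : Prop := ∀ (k d m : ℕ) (V : ℕ → Machine k) (n N : ℕ) (D : Dat k)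
  (X : (Fin n → Bool) → Bool) (W : (List Bool → Bool) → Bool) (b : Bool),
  1 ≤ k → n ≤ N → m ≤ N → Ac d m W → d ≤ n → m ≤ 2 ^ (n + 20) ^ 2 →
  ∑ g : Ar k n N, ∑ P : Bl k n N, 1 / (Fintype.card (Ar k n N) : ℝ) *
      (∏ p, m0 (qs (hl p)) (hl p).length (wln (hl p)) (P p)) *
      (if W (lbv V D X g P) = b then 1 else 0) -
    (∑ p : Bi k n N, (1 / 8 : ℝ) ^ (p.1.1.length + 20) + ∑ s : Li n N, (1 / 4 : ℝ) ^ s.1.length) ≤
  ∑ a : Ad k n N, ∑ g : Ar k n N, ∑ P : Bl k n N,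
    1 / ((Fintype.card (Ad k n N) : ℝ) * Fintype.card (Ar k n N)) *
      (∏ p, mB (qs (hl p)) (hl p).length (rns (hl p)) (wln (hl p)) (a p.1 p.2.1 p.2.2) (P p)) *
      (if W (orc V (ina n N D X a g P)) = b then 1 else 0)

/-- CLE: if a formula is always right then the function is computed by its restrictions. -/
def T_CLE : Prop := ∀ (k d c : ℕ) (V : ℕ → Machine k)
  (f : (n : ℕ) → ((Fin n → Bool) → Bool) → Option Bool) (W : ℕ → (List Bool → Bool) → Bool),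
  1 ≤ k → (∀ n, Ac d (n ^ c + c) (W n)) →
  ∀ᶠ n in atTop, ∀ N : ℕ, N = n ^ (c + 1) + c + 1 → ∀ D : Dat k,
    (∀ X, ∀ σ : Se k n N, okE σ → ∀ b, f n X = some b → W n (orc V (ins n N D X σ)) = b) →
    MajAt n (W n) (f n)

end Pool.Agent.H70.RK
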