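import Pool.Agent.H78.XQ.All
import Pool.Agent.H49.RC.RAZ
import Pool.Agent.H52.RC.LVL
import Pool.Agent.H52.RC.SIM
import Pool.Agent.H60.RC.CNT
import Pool.Agent.H60.RC.LOC
import Pool.Agent.H60.RC.NEW
import Pool.Agent.H61.RC.PB
import Pool.Agent.H6.RC.SIX
import Pool.Agent.H70.RC.ENC
import Pool.Agent.H79.RK.ADB
import Pool.Agent.H21.RK.ADS
import Pool.Agent.H34.RK.AFD
import Pool.Agent.H69.RK.ACL
import Pool.Agent.H66.RK.GTL
import Pool.Agent.H66.RK.DNS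
import Pool.Agent.H11.RK.CAN
import Pool.Agent.H66.RK.RDT
import Pool.Agent.H61.RK.CVF
import Pool.Agent.H38.RK.WCS
import Pool.Agent.H61.RK.RDW
import Pool.Agent.H61.RK.GDC
import Pool.Agent.H11.RK.VLK
import Pool.Agent.H11.RK.RZK
import Pool.Agent.H47.RK.HYC
import Pool.Agent.H69.RK.TVX

/-!
# The relativizing consequences of Σ_k ⊆ BQP: assembly of the general facts
-/

set_option autoImplicit false

namespace Pool.Agent.H70.RK

open Pool.Agent.H78.XQ Pool.Agent.H70.EI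

theorem all_ADM : T_ADM := Pool.Agent.H21.RK.pf_ADM

theorem all_ADB : T_ADB := Pool.Agent.H79.RK.pf_ADB

theorem all_AFD : T_AFD := Pool.Agent.H34.RK.pf_AFD

theorem all_ACL : T_ACL := Pool.Agent.H69.RK.pf_ACL pf_CLB_NB

theorem all_GTL : T_GTL := Pool.Agent.H66.RK.pf_GTL

theorem all_DNS : T_DNS := Pool.Agent.H66.RK.pf_DNS

theorem all_CAN : T_CAN := Pool.Agent.H11.RK.pf_CAN

theorem all_RDT : T_RDT := Pool.Agent.H66.RK.pf_RDT all_CAN Pool.Agent.H61.RC.pf_RNC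

theorem all_CVF : T_CVF := Pool.Agent.H61.RK.pf_CVF

theorem all_WCS : T_WCS := Pool.Agent.H38.RK.pf_WCS all_ADM all_ADB all_AFD all_DNS

theorem all_RDW : T_RDW := Pool.Agent.H61.RK.pf_RDW all_WCS all_GTL

theorem all_GDC : T_GDC := Pool.Agent.H61.RK.pf_GDC all_ACL pf_CLB_NB all_WCS all_CAN all_DNS all_GTL

theorem all_VLK : T_VLK := Pool.Agent.H11.RK.pf_VLK all_ADB

theorem all_RZK : T_RZK := Pool.Agent.H11.RK.pf_RZK
  (Pool.Agent.H49.RC.pf_RAZ Pool.Agent.H70.RC.pf_ENC Pool.Agent.H60.RC.pf_CNT) all_CAN all_DNS all_GTL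

theorem all_HYC : T_HYC := Pool.Agent.H47.RK.pf_HYC

theorem all_TVX : T_TVX := Pool.Agent.H69.RK.pf_TVX

end Pool.Agent.H70.RK
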