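import Pool.Agent.H70.RK.Stmt
import Pool.Agent.H70.RC.Targets

/-!
# The relativizing consequences of Σ_k ⊆ BQP: definitions for the proof
-/

set_option autoImplicit false

namespace Pool.Agent.H70.RK

open Finset Pool.Agent.H6.NB Pool.Agent.H70.OQ Pool.Agent.H78.XQ
open Pool.Agent.H70.RC (Term DNF pv fv psat run Bad Arry Right RightP sec)
open Pool.Agent.H70.EH (pos)

/-! ### Trees -/

/-- Decision trees; `leaf none` means that the computation was stopped. -/
inductive TR (W : Type) : Type
  | leaf (o : Option Bool) : TR W
  | node (w : W) (l r : TR W) : TR W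

namespace TR

variable {W : Type}

/-- The output. -/
def eval (O : W → Bool) : TR W → Option Bool
  | leaf o => o
  | node w l r => if O w then r.eval O else l.eval O

/-- The depth. -/
def depth : TR W → ℕ
  | leaf _ => 0
  | node _ l r => max l.depth r.depth + 1

/-- Follow the answers `π` from the root: the queries with the answers, and the label of the leaf if
`π` ends exactly at a leaf. -/
def walk : TR W → List Bool → Term W × Option (Option Bool)
  | leaf o, [] => ([], some o)
  | leaf _, _ :: _ => ([], none)
  | node _ _ _, [] => ([], none)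
  | node w l r, b :: π =>
    let x := if b then r.walk π else l.walk π
    ((w, b) :: x.1, x.2)

/-- All queries satisfy `U`. -/
def On (U : W → Prop) : TR W → Prop
  | leaf _ => True
  | node w l r => U w ∧ l.On U ∧ r.On U

/-- On every path the queries are different. -/
def Nd (T : TR W) : Prop := ∀ π, ((T.walk π).1.map Prod.fst).Nodup

/-- No leaf has the label `none`. -/
def Tot (T : TR W) : Prop := ∀ π, (T.walk π).2 ≠ some none

end TR

/-- All bit lists of length at most `D`. -/
def bl : ℕ → List (List Bool)
  | 0 => [[]]
  | D + 1 => [] :: (bl D).flatMap fun π => [false :: π, true :: π]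

/-- The term of a path which ends in a leaf with the label `false`. -/
def tm {W : Type} (x : Term W × Option (Option Bool)) : Option (Term W) :=
  match x.2 with
  | some (some false) => some x.1
  | _ => none

/-- The disjunctive normal form of `some of the trees has the value false`. -/
def dn {W : Type} (D : ℕ) (L : List (TR W)) : DNF W :=
  L.flatMap fun T => (bl D).filterMap fun π => tm (T.walk π)

/-- The value of a tree. -/
def vt {W : Type} (O : W → Bool) (T : TR W) : Bool := decide (T.eval O = some true)

section can

variable {W S : Type} [DecidableEq S]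

/-- Query all unknown bits of the term `T`, then continue with `F`. -/
def askT (st : W → Option S) : Term W → List (S × Bool) → (List (S × Bool) → TR W) → TR W
  | [], κ, F => F κ
  | p :: T, κ, F =>
    match st p.1 with
    | none => askT st T κ F
    | some s =>
      match κ.lookup s with
      | some _ => askT st T κ F
      | none => .node p.1 (askT st T ((s, false) :: κ) F) (askT st T ((s, true) :: κ) F)

open Classical in
/-- The canonical decision tree (see `run` in `Pool.Agent.H70.RC.Defs`). -/
noncomputable def can (st : W → Option S) (bv : W → Bool) (F : DNF W) : ℕ → List (S × Bool) → TR W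
  | 0, _ => .leaf none
  | r + 1, κ =>
    match F.find? (fun T => decide (psat (pv st bv κ) T)) with
    | none => .leaf (some false)
    | some T => askT st T κ fun κ' =>
        if psat (pv st bv κ') T then .leaf (some true) else can st bv F r κ'

end can

open Classical in
/-- The tree of a decision tree `T` in which the bits at the strings outside `U` are known; `κ` is the list
of the answers for the strings in `U`. -/
noncomputable def cv (U : List Bool → Prop) (bv : List Bool → Bool) :
    List (List Bool × Bool) → Pool.Agent.H6.NB.DT → TR (List Bool)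
  | _, .leaf b => .leaf (some b)
  | κ, .node w l r =>
    if U w then
      match κ.lookup w with
      | some b => if b then cv U bv κ r else cv U bv κ l
      | none => .node w (cv U bv ((w, false) :: κ) l) (cv U bv ((w, true) :: κ) r)
    else if bv w then cv U bv κ r else cv U bv κ l

/-! ### Gates -/

/-- Nested lists: `Gt T m` are the formulas with `m` levels `∃ ¬` over objects of type `T`. -/
def Gt : Type → ℕ → Type
  | T, 0 => T
  | T, m + 1 => Gt (List T) m

/-- Apply a function to the bottom objects. -/
def gmap {T T' : Type} (f : T → T') : (m : ℕ) → Gt T m → Gt T' m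
  | 0, G => f G
  | m + 1, G => gmap (List.map f) m G

/-- The value: `∃ ¬ ∃ ¬ … v`. -/
def gval {T : Type} (v : T → Bool) : (m : ℕ) → Gt T m → Bool
  | 0, G => v G
  | m + 1, G => gval (fun L : List T => L.any fun t => !v t) m G

/-- The bottom objects. -/
def gbs {T : Type} : (m : ℕ) → Gt T m → List T
  | 0, G => [G]
  | m + 1, G => (gbs (T := List T) m G).flatten

/-- All lists have length at most `s`. -/
def gsz {T : Type} (s : ℕ) : (m : ℕ) → Gt T m → Prop
  | 0, _ => True
  | m + 1, G => gsz (T := List T) s m G ∧ ∀ L ∈ gbs (T := List T) m G, L.length ≤ s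

/-! ### Arrays and stars -/

section arrays

variable {I W : Type} {Ch : I → Type}

/-- The cells with `m` chunks. -/
abbrev Ce (I : Type) (Ch : I → Type) (m : ℕ) : Type := Σ s : I, (Fin m → Ch s)

/-- The positions of the stars: the cell `x` has its star at `a x`. -/
def dwn {m : ℕ} (ps : Ce I Ch (m + 1) → W) (a : (x : Ce I Ch m) → Ch x.1) (x : Ce I Ch m) : W :=
  ps ⟨x.1, Fin.cons (α := fun _ => Ch x.1) (a x) x.2⟩

open Classical in
/-- The index of the star at `w`. -/
noncomputable def sti {X : Type} (ps : X → W) (w : W) : Option X :=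
  if h : ∃ x, ps x = w then some h.choose else none

/-- The hints: the stars of all stages. -/
def Hn (I : Type) (Ch : I → Type) : ℕ → Type
  | 0 => Unit
  | m + 1 => ((x : Ce I Ch m) → Ch x.1) × Hn I Ch m

/-- The addresses. -/
def adr : (m : ℕ) → Hn I Ch m → (s : I) → Fin m → Ch s
  | 0, _ => fun _ i => i.elim0
  | m + 1, h => fun s => Fin.cons (α := fun _ => Ch s) (h.1 ⟨s, adr m h.2 s⟩) (adr m h.2 s)

open Classical in
/-- The reduction of a gate to a tree which queries only the final stars: in each stage the level one
subgates are replaced by their canonical decision trees with at most `r` rounds. -/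
noncomputable def red (bv : W → Bool) (r : ℕ) :
    (m : ℕ) → ℕ → (Ce I Ch m → W) → Hn I Ch m → Gt (TR W) m → TR W
  | 0, _, _, _, G => G
  | m + 1, D, ps, h, G => red bv r m (r * D) (dwn ps h.1) h.2
      (gmap (T := List (TR W)) (fun L => can (sti (dwn ps h.1)) bv (dn D L) r []) m G)

open Classical in
/-- All canonical evaluations stop within `r` rounds. -/
def gd (bv : W → Bool) (r : ℕ) :
    (m : ℕ) → ℕ → (Ce I Ch m → W) → Hn I Ch m → Gt (TR W) m → Prop
  | 0, _, _, _, _ => True
  | m + 1, D, ps, h, G => (∀ L ∈ gbs (T := List (TR W)) m G, ¬ Bad (sti (dwn ps h.1)) bv (dn D L) r) ∧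
      gd bv r m (r * D) (dwn ps h.1) h.2
        (gmap (T := List (TR W)) (fun L => can (sti (dwn ps h.1)) bv (dn D L) r []) m G)

noncomputable instance Hn.fin [Finite I] [∀ s, Finite (Ch s)] (m : ℕ) : Finite (Hn I Ch m) := by
  induction m with
  | zero => exact inferInstanceAs (Finite Unit)
  | succ m ih => exact inferInstanceAs (Finite (((x : Ce I Ch m) → Ch x.1) × Hn I Ch m))

noncomputable instance Hn.fint [Finite I] [∀ s, Finite (Ch s)] (m : ℕ) : Fintype (Hn I Ch m) :=
  Fintype.ofFinite _

end arrays

/-! ### Computable trees -/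

/-- For every list of answers the path is computed by `c` questions of level `j` and size `t`. -/
def WC {V W : Type} (t j c : ℕ) (τ : (V → Bool) → TR W) : Prop :=
  ∀ π : List Bool, Adp (Qst V t j) c fun X => (τ X).walk π

/-- Every bit is a constant or a variable. -/
def Lt {V W : Type} (bv : (V → Bool) → W → Bool) : Prop :=
  ∀ w, (∃ b, ∀ y, bv y w = b) ∨ ∃ v, ∀ y, bv y w = y v

/-! ### Instances -/

/-- The answer of the instance `s`. -/
def ans {k : ℕ} (V : ℕ → Machine k) (O : List Bool → Bool) (s : List Bool) : Prop :=
  ∃ (i : ℕ) (x : List Bool), s = inst (V i).c i x ∧ x ∈ (V i).lang O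

/-- `G s` is a gate for the answer of the instance `s`, with decision trees of depth at most `t s` and
queries of length at most `t s`. -/
structure Gf {k : ℕ} (V : ℕ → Machine k) (G : List Bool → Gt Pool.Agent.H6.NB.DT k)
    (t : List Bool → ℕ) : Prop where
  sq : ∀ s, (t s + 1) ^ 2 ≤ s.length + 1
  len : ∀ s, gsz (2 ^ (t s + 1)) k (G s)
  dp : ∀ s, ∀ T ∈ gbs k (G s), T.depth ≤ t s
  ql : ∀ s, ∀ T ∈ gbs k (G s), T.Short (t s)
  ans : ∀ s O, ans V O s ↔ gval (fun T => T.eval O) k (G s) = true

/-! ### Positions -/

/-- The indices of the blocks: the block `(s, i, j)` encodes the bit number `(i, j)` of the address of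
`s`. -/
abbrev Bx (k : ℕ) : Type := Σ s : List Bool, Fin k × Fin (4 * s.length)

/-- The instance string of a block. -/
def hb {k : ℕ} (p : Bx k) : List Bool := hmk k p.1 p.2.1 p.2.2

/-- The content of the block with the instance string `h`. -/
abbrev CB (h : List Bool) : Type :=
  ((Fin (2 * h.length) → Bool) → VV (qs h) → Bool) × ((Fin (wln h) → Bool) → Bool)

/-- The block says the bit `b`. -/
def okb (h : List Bool) (b : Bool) (c : CB h) : Prop := OkB (qs h) h.length (rns h) (wln h) b c

/-- The chunks of the addresses. -/
abbrev Ck (s : List Bool) : Type := Fin (4 * s.length) → Bool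

/-- The addresses. -/
abbrev Aa (k : ℕ) (s : List Bool) : Type := Fin k → Ck s

/-- Positions of the oracle: entries of the sections, entries of the arrays, copies and correction strings
of the blocks. -/
abbrev Ps (k : ℕ) : Type := (Σ n : ℕ, Fin n → Bool) ⊕ (Σ s : List Bool, Aa k s) ⊕
  (Σ p : Bx k, (Fin (2 * (hb p).length) → Bool) × VV (qs (hb p))) ⊕ (Σ p : Bx k, Fin (wln (hb p)) → Bool)

/-- The string of a position. -/
def str {k : ℕ} : Ps k → List Bool
  | .inl x => false :: List.ofFn x.2
  | .inr (.inl x) => Pool.Agent.H70.RC.arrp x.1 (flat x.2)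
  | .inr (.inr (.inl x)) => pos (hb x.1) (List.ofFn x.2.1) (List.ofFn x.2.2.2) x.2.2.1
  | .inr (.inr (.inr x)) => wps (hb x.1) (List.ofFn x.2)

/-- The level of a position. -/
def lvl {k : ℕ} : Ps k → ℕ
  | .inl x => x.1
  | .inr (.inl x) => x.1.length
  | .inr (.inr (.inl x)) => x.1.1.length
  | .inr (.inr (.inr x)) => x.1.1.length

/-- The data of an oracle: sections, addresses, arrays and blocks. -/
structure Dat (k : ℕ) where
  X : (n : ℕ) → (Fin n → Bool) → Bool
  a : (s : List Bool) → Aa k s
  h : (s : List Bool) → Aa k s → Bool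
  c : (p : Bx k) → CB (hb p)

/-- The blocks encode the addresses and the sections are in the domain of `f`. -/
def Dat.Ok {k : ℕ} (f : (n : ℕ) → ((Fin n → Bool) → Bool) → Option Bool) (D : Dat k) : Prop :=
  (∀ n, f n (D.X n) ≠ none) ∧ ∀ p : Bx k, okb (hb p) (D.a p.1 p.2.1 p.2.2) (D.c p)

/-- The value of a position, with junk in the arrays. -/
def val {k : ℕ} (D : Dat k) : Ps k → Bool
  | .inl x => D.X x.1 x.2
  | .inr (.inl x) => D.h x.1 x.2
  | .inr (.inr (.inl x)) => (D.c x.1).1 x.2.1 x.2.2
  | .inr (.inr (.inr x)) => (D.c x.1).2 x.2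

open Classical in
/-- The oracle with junk in the arrays. -/
noncomputable def base {k : ℕ} (D : Dat k) (w : List Bool) : Bool :=
  if h : ∃ p : Ps k, str p = w then val D h.choose else false

/-- The position of the answer of the instance `s`. -/
def star {k : ℕ} (D : Dat k) (s : List Bool) : List Bool := Pool.Agent.H70.RC.arrp s (flat (D.a s))

open Classical in
/-- The oracle with the answers of the instances of length less than `L`. -/
noncomputable def lev {k : ℕ} (V : ℕ → Machine k) (D : Dat k) : ℕ → List Bool → Bool
  | 0 => base D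
  | L + 1 => fun w => if h : ∃ s : List Bool, s.length = L ∧ w = star D s then
      decide (ans V (lev V D L) h.choose) else lev V D L w

/-- The oracle. -/
noncomputable def orc {k : ℕ} (V : ℕ → Machine k) (D : Dat k) (w : List Bool) : Bool :=
  lev V D w.length w

/-- The data agree at the levels `i` with `Z i`. -/
def Agr {k : ℕ} (Z : ℕ → Prop) (D D' : Dat k) : Prop :=
  (∀ n, Z n → D.X n = D'.X n) ∧ (∀ s : List Bool, Z s.length → D.a s = D'.a s) ∧
  (∀ s : List Bool, Z s.length → D.h s = D'.h s) ∧ ∀ p : Bx k, Z p.1.length → D.c p = D'.c p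

/-! ### One stage -/

/-- The live instances. -/
abbrev Li (n N : ℕ) : Type := {s : List Bool // n ≤ s.length ∧ s.length ≤ N}

noncomputable instance (n N : ℕ) : Fintype (Li n N) :=
  (Set.Finite.subset (List.finite_length_le Bool N) fun _ h => h.2 :
    {s : List Bool | n ≤ s.length ∧ s.length ≤ N}.Finite).fintype

/-- The indices of the live blocks. -/
abbrev Bi (k n N : ℕ) : Type := Σ s : Li n N, Fin k × Fin (4 * s.1.length)

/-- The instance string of a live block. -/
def hl {k n N : ℕ} (p : Bi k n N) : List Bool := hb (k := k) ⟨p.1.1, p.2⟩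

/-- The addresses of the live instances. -/
abbrev Ad (k n N : ℕ) : Type := (s : Li n N) → Aa k s.1

/-- The hints for the live instances. -/
abbrev Hi (k n N : ℕ) : Type := Hn (Li n N) (fun s => Ck s.1) k

/-- The arrays of the live instances. -/
abbrev Ar (k n N : ℕ) : Type := (s : Li n N) → Aa k s.1 → Bool

/-- The contents of the live blocks. -/
abbrev Bl (k n N : ℕ) : Type := (p : Bi k n N) → CB (hl p)

open Classical in
/-- The data with the section `X` at the level `n` and the addresses, arrays and blocks between the levels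
`n` and `N`. -/
noncomputable def ina {k : ℕ} (n N : ℕ) (D : Dat k) (X : (Fin n → Bool) → Bool) (a : Ad k n N)
    (g : Ar k n N) (P : Bl k n N) : Dat k where
  X := Function.update D.X n X
  a := fun s => if h : n ≤ s.length ∧ s.length ≤ N then a ⟨s, h⟩ else D.a s
  h := fun s => if h : n ≤ s.length ∧ s.length ≤ N then g ⟨s, h⟩ else D.h s
  c := fun p => if h : n ≤ p.1.length ∧ p.1.length ≤ N then P ⟨⟨p.1, h⟩, p.2⟩ else D.c p

/-- The seeds: hints, arrays and blocks. -/
abbrev Se (k n N : ℕ) : Type := Hi k n N × Ar k n N × Bl k n N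

/-- The data with the section `X` and the seeds `σ`. -/
noncomputable def ins {k : ℕ} (n N : ℕ) (D : Dat k) (X : (Fin n → Bool) → Bool) (σ : Se k n N) :
    Dat k := ina n N D X (adr k σ.1) σ.2.1 σ.2.2

/-- The positions of the entries of the live arrays. -/
def pa {k n N : ℕ} (x : Ce (Li n N) (fun s => Ck s.1) k) : List Bool :=
  Pool.Agent.H70.RC.arrp x.1.1 (flat x.2)

open Classical in
/-- The known bits (with junk in the live arrays). -/
noncomputable def lbv {k : ℕ} (V : ℕ → Machine k) {n N : ℕ} (D : Dat k) (X : (Fin n → Bool) → Bool)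
    (g : Ar k n N) (P : Bl k n N) (w : List Bool) : Bool :=
  if ∃ p : Ps k, str p = w ∧ lvl p < n then orc V D w
  else base (ina n N D X (fun _ _ _ => false) g P) w

/-- The gate of the instance `s`: decision trees over the entries of the live arrays. -/
noncomputable def gs {k : ℕ} (V : ℕ → Machine k) (G : List Bool → Gt Pool.Agent.H6.NB.DT k) {n N : ℕ}
    (D : Dat k) (X : (Fin n → Bool) → Bool) (g : Ar k n N) (P : Bl k n N) (s : List Bool) :
    Gt (TR (List Bool)) k :=
  gmap (fun T => cv (fun w => ∃ x : Ce (Li n N) (fun s => Ck s.1) k, pa x = w) (lbv V D X g P) [] T) k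
    (G s)

/-- All canonical evaluations stop within `N` rounds. -/
def GoodS {k : ℕ} (V : ℕ → Machine k) (G : List Bool → Gt Pool.Agent.H6.NB.DT k) {n N : ℕ} (D : Dat k)
    (X : (Fin n → Bool) → Bool) (σ : Se k n N) : Prop :=
  ∀ s : Li n N, gd (lbv V D X σ.2.1 σ.2.2) N k N pa σ.1 (gs V G D X σ.2.1 σ.2.2 s.1)

/-- The blocks encode the addresses. -/
def okA {k n N : ℕ} (a : Ad k n N) (P : Bl k n N) : Prop :=
  ∀ p : Bi k n N, okb (hl p) (a p.1 p.2.1 p.2.2) (P p)

/-- The blocks encode the addresses. -/
def okE {k n N : ℕ} (σ : Se k n N) : Prop := okA (adr k σ.1) σ.2.2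

/-- The distribution of the seeds. -/
noncomputable def mu {k n N : ℕ} (σ : Se k n N) : ℝ :=
  1 / ((Fintype.card (Hi k n N) : ℝ) * Fintype.card (Ar k n N)) * ∏ p : Bi k n N,
    mB (qs (hl p)) (hl p).length (rns (hl p)) (wln (hl p)) (adr k σ.1 p.1 p.2.1 p.2.2) (σ.2.2 p)

end Pool.Agent.H70.RK
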