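import Pool.Agent.H70.RK.Fin2

/-!
# The relativizing consequences of Σ_k ⊆ BQP: the theorem
-/

set_option autoImplicit false

namespace Pool.Agent.H70.RK

open Finset Filter
open Pool.Agent.H6.NB (QAlg inst)
open Pool.Agent.H70.OQ (Machine)
open Pool.Agent.H70.RC (Right RightP sec arrp)

/-- FNK: the theorem. -/
def T_FNK : Prop := ∀ (k : ℕ), 1 ≤ k → ∀ f : (n : ℕ) → ((Fin n → Bool) → Bool) → Option Bool,
  (∀ n, ∃ X, f n X ≠ none) →
  ∀ (V : ℕ → Machine k) (Q : ℕ → ℕ → QAlg) (R : ℕ → ℕ → Set QAlg)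
    (W : ℕ → ℕ → (List Bool → Bool) → Bool) (S : ℕ → Set ℕ),
  (∀ j, ∃ c, ∀ n, (Q j n).T ≤ n ^ c + c ∧ (Q j n).Short (n ^ c + c)) →
  (∀ j, ∃ c, ∀ n, ∀ A ∈ R j n, A.T ≤ n ^ c + c ∧ A.Short (n ^ c + c)) →
  (∀ j, ∃ d c, ∀ n, Ac d (n ^ c + c) (W j n)) →
  ∃ O : List Bool → Bool, (∀ n, f n (sec O n) ≠ none) ∧
    (∀ i x, (x ∈ (V i).lang O → yesK k O (inst (V i).c i x) = 1) ∧
      (x ∉ (V i).lang O → yesK k O (inst (V i).c i x) = 0)) ∧
    (∀ j, (∀ᶠ n in atTop, n ∈ S j → Right (Q j n) O (f n (sec O n))) →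
      ∃ c, ∀ᶠ n in atTop, n ∈ S j → EasyK k n (n ^ c + c) (f n)) ∧
    (∀ j, (∀ᶠ n in atTop, n ∈ S j → RightP (R j n) O (f n (sec O n))) →
      ∃ c, ∀ᶠ n in atTop, n ∈ S j → EasyKP k n (n ^ c + c) (f n)) ∧
    (∀ j, (∀ᶠ n in atTop, n ∈ S j → f n (sec O n) = some (W j n O) ) →
      ∀ᶠ n in atTop, n ∈ S j → MajAt n (W j n) (f n))

/-- The tests. -/
def tst (Q : ℕ → ℕ → QAlg) (R : ℕ → ℕ → Set QAlg) (W : ℕ → ℕ → (List Bool → Bool) → Bool)
    (j n : ℕ) (O : List Bool → Bool) (a : Option Bool) : Prop :=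
  if j % 3 = 0 then Right (Q (j / 3) n) O a else
    if j % 3 = 1 then RightP (R (j / 3) n) O a else ∀ b, a = some b → W (j / 3) n O = b

/-- The exponents. -/
def cex (cQ cR cW : ℕ → ℕ) (j : ℕ) : ℕ :=
  if j % 3 = 0 then cQ (j / 3) else if j % 3 = 1 then cR (j / 3) else cW (j / 3)

/-- The conclusions. -/
def cnl (k : ℕ) (f : (n : ℕ) → ((Fin n → Bool) → Bool) → Option Bool)
    (W : ℕ → ℕ → (List Bool → Bool) → Bool) (j n m : ℕ) : Prop :=
  if j % 3 = 0 then EasyK k n m (f n) else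
    if j % 3 = 1 then EasyKP k n m (f n) else MajAt n (W (j / 3) n) (f n)

theorem pf_FNK (hESY : Pool.Agent.H70.RK.T_ESY) (hESX : Pool.Agent.H70.RK.T_ESX) (hCLE : T_CLE)
    (hLOC : Pool.Agent.H70.RC.T_LOC) (hORC : T_ORC)
    (hBAS : T_BAS) (hCON : T_CON) (hEXO : T_EXO) (hINS : Pool.Agent.H70.RK.T_INS) (hSTR : T_STR) :
    T_FNK := by
  classical
  intro k hk f hf V Q R W S hQ hR hW
  choose cQ hcQ using hQ
  choose cR hcR using hR
  choose dW cW hcW using hW
  have a1 : ∀ j n O O' a, (∀ w : List Bool, w.length ≤ n ^ (cex cQ cR cW j) + cex cQ cR cW j →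
      O w = O' w) → tst Q R W j n O a → tst Q R W j n O' a := by
    intro j n O O' a hOO h
    unfold tst cex at *
    by_cases hj : j % 3 = 0
    · simp only [if_pos hj] at h hOO ⊢
      have hp := (hLOC (Q (j / 3) n)).2 _ O O' (hcQ (j / 3) n).2 hOO
      unfold Right at h ⊢
      rw [← hp]
      exact h
    · by_cases hj' : j % 3 = 1
      · simp only [if_neg hj, if_pos hj'] at h hOO ⊢
        have hp : ∀ A ∈ R (j / 3) n, A.prob O = A.prob O' := fun A hA =>
          (hLOC A).2 _ O O' (hcR (j / 3) n A hA).2 hOO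
        refine ⟨fun ha => ?_, fun ha A hA => ?_⟩
        · obtain ⟨A, hA, hA2⟩ := h.1 ha
          exact ⟨A, hA, by rw [← hp A hA]; exact hA2⟩
        · rw [← hp A hA]
          exact h.2 ha A hA
      · simp only [if_neg hj, if_neg hj'] at h hOO ⊢
        intro b hb
        obtain ⟨p, _, hp⟩ := hcW (j / 3) n
        rw [← h b hb, hp, hp]
        exact congrArg p (funext fun w => (hOO w.1 w.2).symm)
  have a2 : ∀ (j n : ℕ) (O : List Bool → Bool), tst Q R W j n O none := by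
    intro j n O
    unfold tst
    by_cases hj : j % 3 = 0
    · simp only [if_pos hj]
      exact ⟨fun h => absurd h (by simp), fun h => absurd h (by simp)⟩
    · by_cases hj' : j % 3 = 1
      · simp only [if_neg hj, if_pos hj']
        exact ⟨fun h => absurd h (by simp), fun h => absurd h (by simp)⟩
      · simp only [if_neg hj, if_neg hj']
        intro b hb
        exact absurd hb (by simp)
  have a3 : ∀ j, ∃ C : ℕ, ∀ᶠ n in atTop, ∀ N : ℕ,
      N = n ^ (cex cQ cR cW j + 1) + cex cQ cR cW j + 1 → ∀ D : Dat k,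
      (∀ X, ∀ σ : Se k n N, okE σ → tst Q R W j n (orc V (ins n N D X σ)) (f n X)) →
      cnl k f W j n (n ^ C + C) := by
    intro j
    unfold tst cex cnl
    by_cases hj : j % 3 = 0
    · simp only [if_pos hj]
      exact hESY k V f (Q (j / 3)) (cQ (j / 3)) hk (hcQ (j / 3))
    · by_cases hj' : j % 3 = 1
      · simp only [if_neg hj, if_pos hj']
        exact hESX k V f (R (j / 3)) (cR (j / 3)) hk (hcR (j / 3))
      · simp only [if_neg hj, if_neg hj']
        exact ⟨0, hCLE k (dW (j / 3)) (cW (j / 3)) V f (W (j / 3)) hk (hcW (j / 3))⟩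
  obtain ⟨O, h1, h2, h3⟩ := fin_gen hk hORC hBAS hCON hEXO hINS hSTR f hf V (tst Q R W)
    (cex cQ cR cW) (cnl k f W) (fun j => S (j / 3)) a1 a2 a3
  refine ⟨O, h1, h2, fun j hj => ?_, fun j hj => ?_, fun j hj => ?_⟩
  · have h4 := h3 (3 * j)
    have e1 : (3 * j) % 3 = 0 := by omega
    have e2 : (3 * j) / 3 = j := by omega
    simp only [tst, cnl, e1, e2, if_true] at h4
    by_contra h
    push Not at h
    have h5 := h4 h
    exact h5 (hj.mono fun n hn h6 => h6.2 (hn h6.1))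
  · have h4 := h3 (3 * j + 1)
    have e1 : ¬ (3 * j + 1) % 3 = 0 := by omega
    have e1' : (3 * j + 1) % 3 = 1 := by omega
    have e2 : (3 * j + 1) / 3 = j := by omega
    simp only [tst, cnl, if_neg e1, if_pos e1', e2] at h4
    by_contra h
    push Not at h
    have h5 := h4 h
    exact h5 (hj.mono fun n hn h6 => h6.2 (hn h6.1))
  · have h4 := h3 (3 * j + 2)
    have e1 : ¬ (3 * j + 2) % 3 = 0 := by omega
    have e1' : ¬ (3 * j + 2) % 3 = 1 := by omega
    have e2 : (3 * j + 2) / 3 = j := by omega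
    simp only [tst, cnl, if_neg e1, if_neg e1', e2] at h4
    by_contra h
    have h5 := h4 fun _ => by
      rw [not_eventually] at h
      refine h.mono fun n hn => ?_
      push Not at hn
      exact hn
    refine h5 (hj.mono fun n hn h6 => h6.2 fun b hb => ?_)
    have h7 := hn h6.1
    rw [h7] at hb
    exact Option.some.inj hb

end Pool.Agent.H70.RK
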