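import Pool.Agent.H70.RK.T2

/-!
# The oracle of a stage
-/

set_option autoImplicit false

namespace Pool.Agent.H70.RK

open Finset Pool.Agent.H6.NB Pool.Agent.H70.OQ Pool.Agent.H78.XQ
open Pool.Agent.H70.RC (arrp)

/-- The data of a stage agree with the old data at the other levels. -/
theorem agr_ina {k : ℕ} (n N : ℕ) (D : Dat k) (X : (Fin n → Bool) → Bool) (a : Ad k n N)
    (g : Ar k n N) (P : Bl k n N) (hN : n ≤ N) :
    Agr (fun i => i < n ∨ N < i) D (ina n N D X a g P) := by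
  refine ⟨fun m hm => ?_, fun s hs => ?_, fun s hs => ?_, fun p hp => ?_⟩
  · have hne : m ≠ n := by omega
    simp only [ina]
    rw [Function.update_of_ne hne]
  · simp only [ina]
    rw [dif_neg (by omega)]
  · simp only [ina]
    rw [dif_neg (by omega)]
  · simp only [ina]
    rw [dif_neg (by omega)]

theorem arrp_inj {k : ℕ} (hinj : Function.Injective (str (k := k))) {s s' : List Bool}
    {a : Aa k s} {a' : Aa k s'} (h : arrp s (flat a) = arrp s' (flat a')) :
    (⟨s, a⟩ : Σ s : List Bool, Aa k s) = ⟨s', a'⟩ := by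
  have h1 : str (Sum.inr (Sum.inl ⟨s, a⟩) : Ps k) = str (Sum.inr (Sum.inl ⟨s', a'⟩) : Ps k) := h
  have h2 := hinj h1
  exact Sum.inl.inj (Sum.inr.inj h2)

theorem pf_ORL (hSTR : T_STR) (hORC : T_ORC) (hBAS : T_BAS) : T_ORL := by
  classical
  intro k V n N D X a g P hk hN
  obtain ⟨D', hD'⟩ : ∃ D', D' = ina n N D X a g P := ⟨_, rfl⟩
  obtain ⟨o1, o2, _⟩ := hORC k V D' hk
  obtain ⟨i1, i2, i3, i4, i5⟩ := hSTR k hk
  have hag := agr_ina n N D X a g P hN
  rw [← hD'] at hag ⊢
  have hD'a : ∀ s : Li n N, D'.a s.1 = a s := by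
    intro s
    rw [hD']
    simp only [ina]
    rw [dif_pos s.2]
  have hbase : ∀ w, base D' w = base (ina n N D X (fun _ _ _ => false) g P) w := by
    intro w
    rw [hD']
    unfold base
    by_cases hq : ∃ p : Ps k, str p = w
    · rw [dif_pos hq, dif_pos hq]
      rcases hq.choose with x | x | x | x <;> rfl
    · rw [dif_neg hq, dif_neg hq]
  refine ⟨fun w hw hU => ?_, fun x hx => ?_, fun s => ?_⟩
  · unfold lbv
    by_cases hp : ∃ p : Ps k, str p = w ∧ lvl p < n
    · rw [if_pos hp]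
      obtain ⟨p, rfl, hp2⟩ := hp
      have h1 : Agr (fun i => i < n) D D' :=
        ⟨fun m hm => hag.1 m (Or.inl hm), fun s hs => hag.2.1 s (Or.inl hs),
          fun s hs => hag.2.2.1 s (Or.inl hs), fun p hp => hag.2.2.2 p (Or.inl hp)⟩
      exact (((hORC k V D hk).2.2 D' n h1).1 p hp2).symm
    · rw [if_neg hp, ← hbase]
      refine o1 w fun s hs => ?_
      by_cases h1 : s.length < n
      · exact hp ⟨Sum.inr (Sum.inl ⟨s, D'.a s⟩), hs.symm, h1⟩
      by_cases h2 : s.length ≤ N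
      · exact hU ⟨⟨⟨s, by omega, h2⟩, D'.a s⟩, hs.symm⟩
      · have h3 := i3 s (D'.a s)
        have h4 : w.length = (arrp s (flat (D'.a s))).length := by rw [hs]; rfl
        omega
  · have hno : ¬ ∃ p : Ps k, str p = pa x ∧ lvl p < n := by
      rintro ⟨p, hp1, hp2⟩
      have h1 : str p = str (Sum.inr (Sum.inl ⟨x.1.1, x.2⟩) : Ps k) := hp1
      rw [i1 h1] at hp2
      have h2 : x.1.1.length < n := hp2
      have h3 := x.1.2.1
      omega
    have hns : ∀ s, pa x ≠ star D' s := by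
      intro s hs
      have h1 : arrp x.1.1 (flat x.2) = arrp s (flat (D'.a s)) := hs
      obtain ⟨⟨s0, hs0⟩, x2⟩ := x
      obtain ⟨rfl, h2⟩ := Sigma.mk.inj_iff.1 (arrp_inj i1 h1)
      refine hx ⟨s0, hs0⟩ ?_
      have h3 : x2 = D'.a s0 := eq_of_heq h2
      have h4 := hD'a ⟨s0, hs0⟩
      simp only at h4
      rw [h3, ← h4]
    rw [o1 _ hns, hbase]
    unfold lbv
    rw [if_neg hno]
  · have h1 : pa (⟨s, a s⟩ : Ce (Li n N) (fun s => Ck s.1) k) = star D' s.1 := by
      unfold pa star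
      rw [hD'a]
    rw [h1]
    exact o2 s.1

end Pool.Agent.H70.RK
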