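import Pool.Agent.H70.OQ.Stmt
import Pool.Agent.H70.RC.Stmt2
import Pool.Agent.H6.NB.Defs

/-!
# The relativizing consequences of Σ_k ⊆ BQP: definitions

Quantum query algorithms `QAlg` and the code `inst` are those of `Pool.Agent.H6.NB.Stmt`, the machines with
`k` alternations `Machine k` are those of `Pool.Agent.H70.OQ.Stmt`, the exact quantum algorithm `exact` is
that of `Pool.Agent.H78.XQ.Stmt`, the sections `sec` and the predicates `Right`, `RightP` are those of
`Pool.Agent.H70.RC.Stmt` and `Stmt2`.
-/

set_option autoImplicit false

namespace Pool.Agent.H70.RK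

open Pool.Agent.H6.NB Pool.Agent.H70.OQ Pool.Agent.H78.XQ Pool.Agent.H70.RC

/-! ### Computations with a Σ_k oracle in the query model -/

/-- `Adp q c g`: the function `g` of `X` is computed by at most `c` adaptive questions of the class `q`,
in other words by a decision tree of depth at most `c` whose nodes are labelled by Boolean functions `p`
with `q p`: if `p X = true` then the computation continues with `g1`, otherwise with `g0`. -/
inductive Adp {V α : Type} (q : ((V → Bool) → Bool) → Prop) : ℕ → ((V → Bool) → α) → Prop
  | pure (c : ℕ) (a : α) : Adp q c fun _ => a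
  | ask (c : ℕ) (p : (V → Bool) → Bool) (g g0 g1 : (V → Bool) → α) (hp : q p) (h0 : Adp q c g0)
      (h1 : Adp q c g1) (hg1 : ∀ X, p X = true → g X = g1 X) (hg0 : ∀ X, p X = false → g X = g0 X) :
      Adp q (c + 1) g

/-- Questions of level `k` and size `t` about the values of the variables in `V`. Level `0`: the value of
one variable. Level `k + 1`: is the value of one of at most `2 ^ t` functions `true`, each of which is
computed by at most `t` adaptive questions of level `k`? So the questions of level `k ≥ 1` are the
`Σ_k` predicates, and `Adp (Qst V t k) t` is `P^(Σ_k)` in the query model. -/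
def Qst (V : Type) (t : ℕ) : ℕ → ((V → Bool) → Bool) → Prop
  | 0 => fun p => ∃ v, ∀ X, p X = X v
  | k + 1 => fun p => ∃ L : List ((V → Bool) → Bool), L.length ≤ 2 ^ t ∧
      (∀ g ∈ L, Adp (Qst V t k) t g) ∧ ∀ X, (p X = true ↔ ∃ g ∈ L, g X = true)

/-- The partial function `f` of the truth table `X : {0,1}^n → {0,1}` is computed with cost `m` and error
at most `2/5` by a quantum algorithm with an oracle for functions in P^(Σ_k): the algorithm makes at most
`m` queries to strings `w` of length at most `m`, the answer to the query `w` is `g w X`, which is computed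
by at most `m` adaptive questions of level `k` and size `m`. -/
def EasyK (k n m : ℕ) (f : ((Fin n → Bool) → Bool) → Option Bool) : Prop :=
  ∃ (Q : QAlg) (g : List Bool → ((Fin n → Bool) → Bool) → Bool), Q.T ≤ m ∧ Q.Short m ∧
    (∀ w, Adp (Qst (Fin n → Bool) m k) m (g w)) ∧
    ∀ X, (f X = some true → 3 / 5 ≤ Q.prob fun w => g w X) ∧
      (f X = some false → (Q.prob fun w => g w X) ≤ 2 / 5)

/-- The same for a set `R` of quantum algorithms (for instance the strategies of provers): the value `true`
is recognised by some member, the value `false` by all members. -/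
def EasyKP (k n m : ℕ) (f : ((Fin n → Bool) → Bool) → Option Bool) : Prop :=
  ∃ (R : Set QAlg) (g : List Bool → ((Fin n → Bool) → Bool) → Bool),
    (∀ A ∈ R, A.T ≤ m ∧ A.Short m) ∧ (∀ w, Adp (Qst (Fin n → Bool) m k) m (g w)) ∧
    ∀ X, (f X = some true → ∃ A ∈ R, 3 / 5 ≤ A.prob fun w => g w X) ∧
      (f X = some false → ∀ A ∈ R, (A.prob fun w => g w X) ≤ 2 / 5)

/-! ### Classical classes -/

/-- The oracle which one gets by the substitution `ρ`: every bit is a constant or a bit of `X`. -/
def sbs {n : ℕ} (ρ : List Bool → Bool ⊕ (Fin n → Bool)) (X : (Fin n → Bool) → Bool) (w : List Bool) :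
    Bool :=
  match ρ w with
  | .inl b => b
  | .inr v => X v

/-- `f` is computed with error at most `1/100` by the function `W` of the oracle after one of `2 ^ n + 1`
substitutions of constants and bits of `X` for the bits of the oracle, chosen at random. -/
def MajAt (n : ℕ) (W : (List Bool → Bool) → Bool) (f : ((Fin n → Bool) → Bool) → Option Bool) : Prop :=
  ∃ ρ : Fin (2 ^ n + 1) → List Bool → Bool ⊕ (Fin n → Bool), ∀ X b, f X = some b →
    100 * (Finset.univ.filter fun i => W (sbs (ρ i) X) ≠ b).card ≤ 2 ^ n + 1

/-- The function `W` of the oracle depends only on the strings of length at most `m` and is computed by a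
formula of depth `d` whose gates are disjunctions, with arbitrary signs, of at most `2 ^ m` functions
(`Cl`). -/
def Ac (d m : ℕ) (W : (List Bool → Bool) → Bool) : Prop :=
  ∃ p : ({w : List Bool // w.length ≤ m} → Bool) → Bool, Cl {w : List Bool // w.length ≤ m} (2 ^ m) d p ∧
    ∀ O, W O = p fun w => O w.1

/-! ### The exact quantum algorithm for the Σ_k languages -/

/-- The instance string of the bit number `(i, j)` of the address which belongs to `s`. -/
def hmk (k : ℕ) (s : List Bool) (i j : ℕ) : List Bool :=
  code s (List.replicate i true ++ false :: List.replicate j true) (16 * (s.length + 20 + k) ^ 3)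

/-- An address as a string. -/
def flat {k m : ℕ} (a : Fin k → Fin m → Bool) : List Bool := (List.ofFn fun i => List.ofFn (a i)).flatten

/-- The acceptance probability of the following quantum algorithm: for all `i < k` and `j < 4 |s|` run the
exact algorithm `exact (hmk k s i j)`, let `a i j` be its outcome; query the oracle at the string
`arrp s (flat a)` and accept iff the oracle contains it. -/
noncomputable def yesK (k : ℕ) (O : List Bool → Bool) (s : List Bool) : ℝ :=
  ∑ a : Fin k → Fin (4 * s.length) → Bool, (∏ i, ∏ j,
    if a i j then (exact (hmk k s i j)).prob O else 1 - (exact (hmk k s i j)).prob O) *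
    (if O (arrp s (flat a)) then 1 else 0)

end Pool.Agent.H70.RK
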