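import Pool.Agent.H70.RK.Defs

/-!
# The relativizing consequences of Σ_k ⊆ BQP: module targets, abstract part
-/

set_option autoImplicit false

namespace Pool.Agent.H70.RK

open Finset Filter Pool.Agent.H6.NB Pool.Agent.H70.OQ Pool.Agent.H78.XQ
open Pool.Agent.H70.RC (Term DNF pv fv psat run Bad Arry Right RightP sec)

/-! ## Part A: adaptive questions -/

/-- ADM: monotonicity. -/
def T_ADM : Prop := ∀ (V α : Type) (t t' j j' c c' : ℕ) (g : (V → Bool) → α), t ≤ t' → j ≤ j' →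
  c ≤ c' → 1 ≤ t' → Adp (Qst V t j) c g → Adp (Qst V t' j') c' g

/-- ADB: composition. -/
def T_ADB : Prop := ∀ (V α β : Type) (q : ((V → Bool) → Bool) → Prop) (c c' : ℕ) (g : (V → Bool) → α)
  (h : α → (V → Bool) → β), Adp q c g → (∀ a, Adp q c' (h a)) → Adp q (c + c') fun X => h (g X) X

/-- AFD: search for the first element of a list with a property. -/
def T_AFD : Prop := ∀ (V β : Type) (t j K : ℕ) (L : List β) (p : β → (V → Bool) → Bool),
  L.length ≤ 2 ^ K → K ≤ t → (∀ b ∈ L, Adp (Qst V t j) t (p b)) →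
  Adp (Qst V t (j + 1)) (K + 1) fun X => L.find? fun b => p b X

open Classical in
/-- ACL: adaptive questions are formulas. -/
def T_ACL : Prop := ∀ (V α : Type) (t j c S : ℕ) (g : (V → Bool) → α) (a : α), 2 ≤ S → 2 ^ t ≤ S →
  2 ^ c ≤ S → Adp (Qst V t j) c g → Cl V S (3 * j + 2) fun X => decide (g X = a)

/-! ## Part B: trees and gates -/

/-- GTL: gates. -/
def T_GTL : Prop :=
  (∀ (T T' : Type) (f : T → T') (m : ℕ) (G : Gt T m), gbs m (gmap f m G) = (gbs m G).map f) ∧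
  (∀ (T T' : Type) (f : T → T') (s m : ℕ) (G : Gt T m), gsz s m (gmap f m G) ↔ gsz s m G) ∧
  (∀ (T : Type) (s m : ℕ) (G : Gt T m), gsz s m G → (gbs m G).length ≤ s ^ m) ∧
  (∀ (T T' : Type) (f : T → T') (v : T' → Bool) (m : ℕ) (G : Gt T m),
    gval v m (gmap f m G) = gval (fun x => v (f x)) m G) ∧
  (∀ (T : Type) (v v' : T → Bool) (m : ℕ) (G : Gt T m), (∀ x ∈ gbs m G, v x = v' x) →
    gval v m G = gval v' m G) ∧
  (∀ (T T' : Type) (f f' : T → T') (m : ℕ) (G : Gt T m), (∀ x ∈ gbs m G, f x = f' x) →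
    gmap f m G = gmap f' m G) ∧
  ∀ (T T' T'' : Type) (f : T → T') (f' : T' → T'') (m : ℕ) (G : Gt T m),
    gmap f' m (gmap f m G) = gmap (fun x => f' (f x)) m G

/-- DNS: the disjunctive normal form of a list of trees. -/
def T_DNS : Prop := ∀ (W : Type) (D : ℕ) (L : List (TR W)),
  (bl D).length < 2 ^ (D + 1) ∧ (∀ π : List Bool, π ∈ bl D ↔ π.length ≤ D) ∧
  (∀ T ∈ dn D L, T.length ≤ D) ∧ ((∀ T ∈ L, T.Nd) → ∀ T ∈ dn D L, (T.map Prod.fst).Nodup) ∧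
  (∀ U : W → Prop, (∀ T ∈ L, T.On U) → ∀ T ∈ dn D L, ∀ p ∈ T, U p.1) ∧
  ∀ O : W → Bool, (∀ T ∈ L, T.depth ≤ D) → (DNF.Sat O (dn D L) ↔ ∃ T ∈ L, T.eval O = some false)

/-- CAN: the canonical tree. -/
def T_CAN : Prop := ∀ (W S : Type) [DecidableEq S] (st : W → Option S) (bv : W → Bool) (F : DNF W)
  (r D : ℕ), (∀ w w' s, st w = some s → st w' = some s → w = w') → (∀ T ∈ F, T.length ≤ D) →
  (can st bv F r []).depth ≤ r * D ∧ (can st bv F r []).On (fun w => st w ≠ none) ∧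
  (can st bv F r []).Nd ∧ (¬ Bad st bv F r ↔ (can st bv F r []).Tot) ∧
  (∀ β : S → Bool, (can st bv F r []).eval (fv st bv β) = run st bv F β r []) ∧
  ∀ bv' : W → Bool, (∀ T ∈ F, ∀ p ∈ T, st p.1 = none → bv p.1 = bv' p.1) →
    can st bv' F r [] = can st bv F r [] ∧ (Bad st bv' F r ↔ Bad st bv F r)

/-- RDT: the reduction of a gate is correct. -/
def T_RDT : Prop := ∀ (I W : Type) (Ch : I → Type) (m D r : ℕ) (bv : W → Bool) (ps : Ce I Ch m → W)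
  (h : Hn I Ch m) (G : Gt (TR W) m) (Y : W → Prop), Function.Injective ps →
  (∀ T ∈ gbs m G, T.depth ≤ D ∧ T.Nd ∧ T.Tot ∧ T.On fun w => (∃ x, ps x = w) ∧ Y w) →
  gd bv r m D ps h G →
  (red bv r m D ps h G).depth ≤ r ^ m * D ∧ (red bv r m D ps h G).Tot ∧
  ((red bv r m D ps h G).On fun w => (∃ s, w = ps ⟨s, adr m h s⟩) ∧ Y w) ∧
  ∀ O : W → Bool, (∀ x, (∀ s, ps x ≠ ps ⟨s, adr m h s⟩) → O (ps x) = bv (ps x)) →
    (red bv r m D ps h G).eval O = some (gval (vt O) m G)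

/-- CVF: the tree of a decision tree with known bits. -/
def T_CVF : Prop := ∀ (U : List Bool → Prop) (m : ℕ) (T : Pool.Agent.H6.NB.DT), T.Short m →
  (∀ bv : List Bool → Bool, (cv U bv [] T).depth ≤ T.depth ∧ (cv U bv [] T).Nd ∧
    (cv U bv [] T).Tot ∧ ((cv U bv [] T).On fun w => U w ∧ w.length ≤ m) ∧
    (∀ O : List Bool → Bool, (∀ w, w.length ≤ m → ¬ U w → O w = bv w) →
      (cv U bv [] T).eval O = some (T.eval O)) ∧
    ∀ bv' : List Bool → Bool, (∀ w, w.length ≤ m → ¬ U w → bv w = bv' w) →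
      cv U bv [] T = cv U bv' [] T) ∧
  ∀ (V : Type) (t : ℕ) (bv : (V → Bool) → List Bool → Bool), Lt bv →
    WC t 0 T.depth fun y => cv U (bv y) [] T

/-- WCS: the canonical tree is computable. -/
def T_WCS : Prop := ∀ (V W S : Type) [DecidableEq S] (t j c K D r : ℕ) (st : W → Option S)
  (bv : (V → Bool) → W → Bool) (L : List ((V → Bool) → TR W)), Lt bv → L.length ≤ 2 ^ K →
  (∀ τ ∈ L, WC t j c τ) → c + D ≤ t → K + D + 1 ≤ t →
  WC t (j + 1) (r * (K + 2 * D + 2 + c)) fun y => can st (bv y) (dn D (L.map fun τ => τ y)) r []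

/-- RDW: the reduction of a gate is computable. -/
def T_RDW : Prop := ∀ (V I W : Type) (Ch : I → Type) (Z i m j t r K D c : ℕ)
  (bv : (V → Bool) → W → Bool) (ps : Ce I Ch m → W) (h : Hn I Ch m)
  (G : Gt ((V → Bool) → TR W) m), 2 ≤ Z → r ≤ Z → K ≤ Z → D ≤ Z ^ (i + 1) → c ≤ (8 * Z) ^ (i + 1) →
  (8 * Z) ^ (i + m + 1) ≤ t → Lt bv → gsz (2 ^ K) m G → (∀ τ ∈ gbs m G, WC t j c τ) →
  WC t (j + m) ((8 * Z) ^ (i + m + 1)) fun y => red (bv y) r m D ps h (gmap (fun τ => τ y) m G)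

open Classical in
/-- GDC: to be good is a formula. -/
def T_GDC : Prop := ∀ (V I W : Type) (Ch : I → Type) (Z i m j t r K D c S : ℕ)
  (bv : (V → Bool) → W → Bool) (ps : Ce I Ch m → W) (h : Hn I Ch m)
  (G : Gt ((V → Bool) → TR W) m), Function.Injective ps → 2 ≤ Z → r ≤ Z → K ≤ Z → D ≤ Z ^ (i + 1) →
  c ≤ (8 * Z) ^ (i + 1) → (8 * Z) ^ (i + m + 1) ≤ t → 2 ^ t ≤ S → Lt bv → gsz (2 ^ K) m G →
  (∀ τ ∈ gbs m G, WC t j c τ) →
  Cl V S (4 * (j + m) + 6) fun y => decide (gd (bv y) r m D ps h (gmap (fun τ => τ y) m G))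

/-- VLK: recursive evaluation. -/
def T_VLK : Prop := ∀ (V W S : Type) (t k c D : ℕ) (sp : S → W) (T : S → (V → Bool) → TR W)
  (lv : S → ℕ), Function.Injective sp → (∀ s, WC t k c (T s)) →
  ∃ G : S → (V → Bool) → Bool,
    (∀ s, Adp (Qst V t k) (((D + 1) * (2 * c + 1)) ^ (lv s + 1)) (G s)) ∧
    ∀ (X : V → Bool) (O : W → Bool), (∀ s, (T s X).depth ≤ D ∧
        ((T s X).On fun w => ∃ s', sp s' = w ∧ lv s' < lv s) ∧
        (O (sp s) = true ↔ (T s X).eval O = some true)) →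
      ∀ s, O (sp s) = G s X

/-! ## Part C: counting -/

/-- RZK: the number of bad hints and arrays. -/
def T_RZK : Prop := ∀ (I W : Type) [Fintype I] [DecidableEq I] [DecidableEq W] (Ch : I → Type)
  [∀ s, Fintype (Ch s)] [∀ s, DecidableEq (Ch s)] (r M s m D : ℕ) (ps : Ce I Ch m → W)
  (bv : (Ce I Ch m → Bool) → W → Bool) (G : Gt (TR W) m),
  Function.Injective ps → (∀ g x, bv g (ps x) = g x) →
  (∀ g g' w, (∀ x, ps x ≠ w) → bv g w = bv g' w) →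
  gsz s m G → (∀ T ∈ gbs m G, T.depth ≤ D ∧ T.Nd ∧ T.On fun w => ∃ x, ps x = w) →
  (∀ i, M ≤ Fintype.card (Ch i)) → 1 ≤ s → 1 ≤ r → 1 ≤ M → 4 * (r * (r ^ m * D)) ≤ M →
  (Nat.card {x : Hn I Ch m × (Ce I Ch m → Bool) // ¬ gd (bv x.2) r m D ps x.1 G} : ℝ) * M ^ r ≤
    m * s ^ m * (3 * (4 * (r * (r ^ m * D))) ^ r) *
      (Nat.card (Hn I Ch m) * Nat.card (Ce I Ch m → Bool))

/-- HYC: replacement of the factors of a product distribution. -/
def T_HYC : Prop := ∀ (J : Type) [Fintype J] [DecidableEq J] (T : J → Type) [∀ j, Fintype (T j)]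
  (u v : ∀ j, T j → ℝ) (B : (∀ j, T j) → ℝ) (δ : J → ℝ), (∀ j p, 0 ≤ u j p) →
  (∀ j, ∑ p, u j p ≤ 1) → (∀ j p, 0 ≤ v j p) → (∀ j, ∑ p, v j p ≤ 1) → (∀ P, 0 ≤ B P) →
  (∀ j, 0 ≤ δ j) →
  (∀ j P, ∑ p, u j p * B (Function.update P j p) - δ j ≤ ∑ p, v j p * B (Function.update P j p)) →
  ∑ P, (∏ j, u j (P j)) * B P - ∑ j, δ j ≤ ∑ P, (∏ j, v j (P j)) * B P

/-- TVX: a bit planted at a random place of a random table is hardly seen. -/
def T_TVX : Prop := ∀ (A : Type) [Fintype A] [DecidableEq A] (F : (A → Bool) → ℝ) (b : Bool),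
  (∀ g, 0 ≤ F g ∧ F g ≤ 1) →
  (Fintype.card A : ℝ) * ∑ g, F g - √(Fintype.card A) * Fintype.card (A → Bool) ≤
    ∑ a, ∑ g, F (Function.update g a b)

/-- ADS: every family of addresses has hints. -/
def T_ADS : Prop := ∀ (I : Type) (Ch : I → Type) (m : ℕ) (a : (s : I) → Fin m → Ch s),
  ∃ h : Hn I Ch m, adr m h = a

end Pool.Agent.H70.RK
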